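import Pool.Agent.Q246.MM.Core
import Pool.Agent.Q53.MD.Moll

/-!
# The class of functions, mollification, quasiconvexity
-/

set_option autoImplicit false

open MeasureTheory Set Filter Topology

namespace Pool.Agent.Q246.MM

open Pool.Agent.W779.Morrey
open Pool.Agent.Q82.MD (Quasiconvex RankOneConvex S_MOLL S_LIMQ S_LC)

/-- `Ψ - p x²` is convex in `x`, `Ψ - q y²` is convex in `y`, the mixed differences are at most `K` -/
structure SC (Ψ : V → ℝ) (K p q : ℝ) : Prop where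
  cx : ∀ y : V, ConvexOn ℝ univ (fun t : ℝ => Ψ (y + t • e0) + -p * t ^ 2)
  cy : ∀ y : V, ConvexOn ℝ univ (fun t : ℝ => Ψ (y + t • e1) + -q * t ^ 2)
  mx : ∀ (y : V) (s t : ℝ), |Ψ (y + s • e0 + t • e1) - Ψ (y + s • e0) - Ψ (y + t • e1) + Ψ y|
    ≤ K * |s| * |t|

theorem cont_of_convex {f : ℝ → ℝ} {c : ℝ} (h : ConvexOn ℝ univ (fun t : ℝ => f t + c * t ^ 2)) :
    Continuous f := by
  have h1 : Continuous (fun t : ℝ => f t + c * t ^ 2) := by
    have := h.continuousOn isOpen_univ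
    exact continuousOn_univ.1 this
  have h2 : f = fun t => (f t + c * t ^ 2) - c * t ^ 2 := by funext t; ring
  rw [h2]
  exact h1.sub (by fun_prop)

theorem SC.continuous {Ψ : V → ℝ} {K p q : ℝ} (h : SC Ψ K p q) : Continuous Ψ := by
  rw [continuous_iff_continuousAt]
  intro y₀
  have hx : Continuous (fun t : ℝ => Ψ (y₀ + t • e0)) := cont_of_convex (h.cx y₀)
  have hy : Continuous (fun t : ℝ => Ψ (y₀ + t • e1)) := cont_of_convex (h.cy y₀)
  have hs : Continuous (fun y : V => y 0 - y₀ 0) := (continuous_apply 0).sub continuous_const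
  have ht : Continuous (fun y : V => y 1 - y₀ 1) := (continuous_apply 1).sub continuous_const
  set D : V → ℝ := fun y => Ψ (y₀ + (y 0 - y₀ 0) • e0 + (y 1 - y₀ 1) • e1)
    - Ψ (y₀ + (y 0 - y₀ 0) • e0) - Ψ (y₀ + (y 1 - y₀ 1) • e1) + Ψ y₀ with hD
  have hDt : Tendsto D (𝓝 y₀) (𝓝 0) := by
    have hb : Tendsto (fun y : V => K * |y 0 - y₀ 0| * |y 1 - y₀ 1|) (𝓝 y₀) (𝓝 0) := by
      have hc : Continuous (fun y : V => K * |y 0 - y₀ 0| * |y 1 - y₀ 1|) :=
        (continuous_const.mul hs.abs).mul ht.abs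
      have := hc.tendsto y₀
      simpa using this
    exact squeeze_zero_norm (fun y => by
      rw [Real.norm_eq_abs]
      exact h.mx y₀ _ _) hb
  have e : Ψ = fun y => D y + Ψ (y₀ + (y 0 - y₀ 0) • e0) + Ψ (y₀ + (y 1 - y₀ 1) • e1) - Ψ y₀ := by
    funext y
    have hy' : y₀ + (y 0 - y₀ 0) • e0 + (y 1 - y₀ 1) • e1 = y := by
      ext i
      fin_cases i <;> simp [e0, e1]
    rw [hD]
    simp only [hy']
    ring
  have hlim : Tendsto (fun y => D y + Ψ (y₀ + (y 0 - y₀ 0) • e0) + Ψ (y₀ + (y 1 - y₀ 1) • e1)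
      - Ψ y₀) (𝓝 y₀) (𝓝 (0 + Ψ y₀ + Ψ y₀ - Ψ y₀)) := by
    refine ((hDt.add ?_).add ?_).sub tendsto_const_nhds
    · have := (hx.comp hs).tendsto y₀
      simpa [Function.comp_def] using this
    · have := (hy.comp ht).tendsto y₀
      simpa [Function.comp_def] using this
  have h3 : (0 + Ψ y₀ + Ψ y₀ - Ψ y₀) = Ψ y₀ := by ring
  rw [h3] at hlim
  rw [ContinuousAt]
  refine hlim.congr fun y => ?_
  exact (congrFun e y).symm

/-- averages stay in the class -/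
theorem SC.avg {Ψ : V → ℝ} {K p q : ℝ} (h : SC Ψ K p q) (μ : Measure V) [IsProbabilityMeasure μ]
    (hint : ∀ y : V, Integrable (fun s => Ψ (y + s)) μ) :
    SC (fun y => ∫ s, Ψ (y + s) ∂μ) K p q := by
  have hcv : ∀ (e : V) (c : ℝ), (∀ y : V, ConvexOn ℝ univ (fun t : ℝ => Ψ (y + t • e) + c * t ^ 2)) →
      ∀ y : V, ConvexOn ℝ univ (fun t : ℝ => (∫ s, Ψ (y + t • e + s) ∂μ) + c * t ^ 2) := by
    intro e c hc y
    refine ⟨convex_univ, fun t₁ _ t₂ _ a b ha hb hab => ?_⟩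
    simp only [smul_eq_mul]
    have hpt : ∀ s : V, Ψ (y + (a * t₁ + b * t₂) • e + s) + c * (a * t₁ + b * t₂) ^ 2
        ≤ a * (Ψ (y + t₁ • e + s) + c * t₁ ^ 2) + b * (Ψ (y + t₂ • e + s) + c * t₂ ^ 2) := by
      intro s
      have := (hc (y + s)).2 (mem_univ t₁) (mem_univ t₂) ha hb hab
      simp only [smul_eq_mul] at this
      have r : ∀ t : ℝ, y + t • e + s = y + s + t • e := fun t => by abel
      rw [r, r, r]
      exact this
    have hI : ∫ s, Ψ (y + (a * t₁ + b * t₂) • e + s) ∂μ ≤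
        ∫ s, (a * Ψ (y + t₁ • e + s) + b * Ψ (y + t₂ • e + s)
          + (a * (c * t₁ ^ 2) + b * (c * t₂ ^ 2) - c * (a * t₁ + b * t₂) ^ 2)) ∂μ := by
      refine integral_mono (hint _) ((((hint _).const_mul a).add ((hint _).const_mul b)).add
        (integrable_const _)) fun s => ?_
      have := hpt s
      simp only
      linarith
    have i12 : Integrable (fun s => a * Ψ (y + t₁ • e + s) + b * Ψ (y + t₂ • e + s)) μ :=
      ((hint _).const_mul a).add ((hint _).const_mul b)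
    rw [integral_add i12 (integrable_const _),
      integral_add ((hint _).const_mul a) ((hint _).const_mul b), integral_const_mul,
      integral_const_mul, integral_const] at hI
    simp only [probReal_univ, smul_eq_mul, one_mul] at hI
    linarith
  refine ⟨fun y => hcv e0 (-p) h.cx y, fun y => hcv e1 (-q) h.cy y, fun y s t => ?_⟩
  have hD : (∫ z, Ψ (y + s • e0 + t • e1 + z) ∂μ) - (∫ z, Ψ (y + s • e0 + z) ∂μ)
      - (∫ z, Ψ (y + t • e1 + z) ∂μ) + (∫ z, Ψ (y + z) ∂μ)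
      = ∫ z, (Ψ (y + s • e0 + t • e1 + z) - Ψ (y + s • e0 + z) - Ψ (y + t • e1 + z)
        + Ψ (y + z)) ∂μ := by
    have i1 : Integrable (fun z => Ψ (y + s • e0 + t • e1 + z) - Ψ (y + s • e0 + z)) μ :=
      (hint _).sub (hint _)
    have i2 : Integrable (fun z => Ψ (y + s • e0 + t • e1 + z) - Ψ (y + s • e0 + z)
      - Ψ (y + t • e1 + z)) μ := i1.sub (hint _)
    rw [integral_add i2 (hint _), integral_sub i1 (hint _), integral_sub (hint _) (hint _)]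
  rw [hD, ← Real.norm_eq_abs]
  have h1 := norm_integral_le_of_norm_le_const (μ := μ) (C := K * |s| * |t|)
    (f := fun z => Ψ (y + s • e0 + t • e1 + z) - Ψ (y + s • e0 + z) - Ψ (y + t • e1 + z)
        + Ψ (y + z)) (Eventually.of_forall fun z => by
      rw [Real.norm_eq_abs]
      have := h.mx (y + z) s t
      have r1 : y + s • e0 + t • e1 + z = y + z + s • e0 + t • e1 := by abel
      have r2 : y + s • e0 + z = y + z + s • e0 := by abel
      have r3 : y + t • e1 + z = y + z + t • e1 := by abel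
      rw [r1, r2, r3]
      exact this)
  rw [probReal_univ, mul_one] at h1
  exact h1

/-- smooth approximation within the class -/
theorem SC.approx {Ψ : V → ℝ} {K p q : ℝ} (h : SC Ψ K p q) {ρ ε : ℝ} (hρ : 0 < ρ) (hε : 0 < ε) :
    ∃ Ψ' : V → ℝ, ContDiff ℝ 2 Ψ' ∧ SC Ψ' K p q ∧ ∀ y : V, (∀ i, |y i| ≤ ρ) → |Ψ y - Ψ' y| ≤ ε := by
  have hψ := h.continuous
  obtain ⟨r, hr0, hr1, hr⟩ : ∃ r : ℝ, 0 < r ∧ r ≤ 1 ∧ ∀ y s : V, (∀ i, |y i| ≤ ρ) →
      (∀ i, |s i| ≤ r) → |Ψ (y + s) - Ψ y| ≤ ε := by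
    have hc := (isCompact_closedBall (0 : V) (ρ + 1)).uniformContinuousOn_of_continuous
      hψ.continuousOn
    rw [Metric.uniformContinuousOn_iff_le] at hc
    obtain ⟨δ, hδ, h1⟩ := hc ε hε
    refine ⟨min δ 1, by positivity, min_le_right _ _, fun y s hy hs => ?_⟩
    have hyn : ‖y‖ ≤ ρ := (pi_norm_le_iff_of_nonneg hρ.le).2 hy
    have hsn : ‖s‖ ≤ min δ 1 := (pi_norm_le_iff_of_nonneg (by positivity)).2 hs
    have h2 := h1 (y + s) (by
      rw [mem_closedBall_zero_iff]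
      exact (norm_add_le _ _).trans (add_le_add hyn (hsn.trans (min_le_right _ _)))) y (by
      rw [mem_closedBall_zero_iff]
      linarith) (by
      rw [dist_eq_norm, add_sub_cancel_left]
      exact hsn.trans (min_le_left _ _))
    rwa [Real.dist_eq] at h2
  obtain ⟨μ, hμ, hμr, hμ0, hμs⟩ := Pool.Agent.Q53.MD.moll r hr0
  have hae : ∀ᵐ s ∂μ, ‖s‖ ≤ r := by
    filter_upwards [hμr] with s hs
    exact (pi_norm_le_iff_of_nonneg hr0.le).2 hs
  have hint : ∀ y : V, Integrable (fun s => Ψ (y + s)) μ := by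
    intro y
    obtain ⟨C, hC⟩ := ((isCompact_closedBall (0 : V) r).image
      (hψ.comp (continuous_const.add continuous_id) : Continuous fun s => Ψ (y + s))).isBounded.subset_closedBall 0
    refine Integrable.of_bound
      (hψ.comp (continuous_const.add continuous_id)).aestronglyMeasurable C ?_
    filter_upwards [hae] with s hs
    have h1 := hC ⟨s, by simpa using hs, rfl⟩
    simpa using h1
  refine ⟨fun y => ∫ s, Ψ (y + s) ∂μ, hμs Ψ hψ, h.avg μ hint, fun y hy => ?_⟩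
  have e : Ψ y - ∫ s, Ψ (y + s) ∂μ = ∫ s, (Ψ y - Ψ (y + s)) ∂μ := by
    rw [integral_sub (integrable_const _) (hint y), integral_const]
    simp
  rw [e, ← Real.norm_eq_abs]
  have h1 := norm_integral_le_of_norm_le_const (μ := μ) (C := ε) (f := fun s => Ψ y - Ψ (y + s)) (by
    filter_upwards [hμr] with s hs
    rw [Real.norm_eq_abs, abs_sub_comm]
    exact hr y s hy hs)
  rw [probReal_univ, mul_one] at h1
  exact h1

/-- the second derivatives of a smooth member of the class -/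
theorem SC.hess {Ψ : V → ℝ} {K p q : ℝ} (h : SC Ψ K p q) (hΨ : ContDiff ℝ 2 Ψ) (y : V) :
    2 * p ≤ fderiv ℝ (fderiv ℝ Ψ) y e0 e0 ∧ 2 * q ≤ fderiv ℝ (fderiv ℝ Ψ) y e1 e1 ∧
    |fderiv ℝ (fderiv ℝ Ψ) y e1 e0| ≤ K ∧
      fderiv ℝ (fderiv ℝ Ψ) y e0 e1 = fderiv ℝ (fderiv ℝ Ψ) y e1 e0 := by
  have h1 := Pool.Agent.Q53.MD.hs_nonneg hΨ y e0 (-p) (h.cx y)
  have h2 := Pool.Agent.Q53.MD.hs_nonneg hΨ y e1 (-q) (h.cy y)
  unfold Pool.Agent.Q82.MD.hs at h1 h2
  have hd : ∀ (z e : V), HasDerivAt (fun s : ℝ => Ψ (z + s • e)) (fderiv ℝ Ψ z e) 0 := by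
    intro z e
    have a1 : HasFDerivAt Ψ (fderiv ℝ Ψ (z + (0 : ℝ) • e)) (z + (0 : ℝ) • e) :=
      (hΨ.differentiable (by norm_num) _).hasFDerivAt
    have a2 : HasDerivAt (fun s : ℝ => z + s • e) e 0 := by
      simpa using ((hasDerivAt_id (0 : ℝ)).smul_const e).const_add z
    have a3 := a1.comp_hasDerivAt 0 a2
    simpa [Function.comp_def] using a3
  have hK : 0 ≤ K := by
    have := h.mx 0 1 1
    simp only [abs_one, mul_one] at this
    exact (abs_nonneg _).trans this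
  have hlip : ∀ t : ℝ, |fderiv ℝ Ψ (y + t • e1) e0 - fderiv ℝ Ψ y e0| ≤ K * |t| := by
    intro t
    have a1 : HasDerivAt (fun s : ℝ => Ψ (y + t • e1 + s • e0) - Ψ (y + s • e0))
        (fderiv ℝ Ψ (y + t • e1) e0 - fderiv ℝ Ψ y e0) 0 := (hd _ _).sub (hd _ _)
    have a2 := a1.le_of_lip' (C := K * |t|) (by positivity) (Eventually.of_forall fun s => by
      rw [Real.norm_eq_abs, Real.norm_eq_abs, sub_zero]
      have := h.mx y s t
      have r1 : y + t • e1 + s • e0 = y + s • e0 + t • e1 := by abel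
      rw [r1, zero_smul, add_zero, add_zero]
      have r2 : Ψ (y + s • e0 + t • e1) - Ψ (y + s • e0) - (Ψ (y + t • e1) - Ψ y)
        = Ψ (y + s • e0 + t • e1) - Ψ (y + s • e0) - Ψ (y + t • e1) + Ψ y := by ring
      rw [r2]
      calc _ ≤ K * |s| * |t| := this
        _ = K * |t| * |s| := by ring)
    rwa [Real.norm_eq_abs] at a2
  have hd2 : HasDerivAt (fun t : ℝ => fderiv ℝ Ψ (y + t • e1) e0)
      (fderiv ℝ (fderiv ℝ Ψ) y e1 e0) 0 := by
    have h0 : ContDiff ℝ 1 (fderiv ℝ Ψ) := hΨ.fderiv_right (by norm_num)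
    have a1 : HasFDerivAt (fderiv ℝ Ψ) (fderiv ℝ (fderiv ℝ Ψ) (y + (0 : ℝ) • e1))
        (y + (0 : ℝ) • e1) := (h0.differentiable (by norm_num) _).hasFDerivAt
    have a2 : HasDerivAt (fun t : ℝ => y + t • e1) e1 0 := by
      simpa using ((hasDerivAt_id (0 : ℝ)).smul_const e1).const_add y
    have a3 := (a1.comp_hasDerivAt 0 a2).clm_apply (hasDerivAt_const (0 : ℝ) e0)
    refine HasDerivAt.congr_deriv (f := fun t : ℝ => fderiv ℝ Ψ (y + t • e1) e0) a3 ?_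
    simp
  have h4 := hd2.le_of_lip' hK (Eventually.of_forall fun t => by
    rw [Real.norm_eq_abs, Real.norm_eq_abs, sub_zero]
    have := hlip t
    simpa using this)
  rw [Real.norm_eq_abs] at h4
  have hsym : IsSymmSndFDerivAt ℝ Ψ y := hΨ.contDiffAt.isSymmSndFDerivAt (by simp)
  exact ⟨by linarith, by linarith, h4, hsym e0 e1⟩

/-- quasiconvexity from the torus -/
theorem qc_of_trig' {W : Matrix (Fin 2) (Fin 2) ℝ → ℝ} {W' : E → ℝ}
    (h : ∀ F : Matrix (Fin 2) (Fin 2) ℝ, W F = W' F)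
    (hW : Continuous W') (hq : QCtrig W') : Quasiconvex W := by
  have e : W = (W' : Matrix (Fin 2) (Fin 2) ℝ → ℝ) := funext h
  rw [e]
  rintro F₀ Ω hΩ hb ϑ ⟨K, hK⟩ h0
  have h := qc_of_trig hW hq F₀ hΩ hb hK h0
  refine h.trans (le_of_eq ?_)
  refine integral_congr_ae (Filter.Eventually.of_forall fun x => ?_)
  simp only
  rw [gr_eq_grad]
  rfl

/-- the functional on matrices -/
noncomputable def WM (Ψ : V → ℝ) (β₁ β₂ : ℝ) (F : Matrix (Fin 2) (Fin 2) ℝ) : ℝ :=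
  Ψ ![F 0 0, F 1 1] + β₁ * F 0 1 ^ 2 + β₂ * F 1 0 ^ 2

theorem WM_eq (Ψ : V → ℝ) (β₁ β₂ : ℝ) (F : Matrix (Fin 2) (Fin 2) ℝ) :
    WM Ψ β₁ β₂ F = W0 Ψ β₁ β₂ F := by
  have : (![F 0 0, F 1 1] : V) = dg F := by
    ext i
    fin_cases i <;> rfl
  rw [WM, W0, this]

theorem continuous_WM {Ψ : V → ℝ} (h : Continuous Ψ) (β₁ β₂ : ℝ) : Continuous (WM Ψ β₁ β₂) := by
  have h1 : Continuous (fun F : E => W0 Ψ β₁ β₂ F) := continuous_W0 h β₁ β₂
  have h2 : (WM Ψ β₁ β₂ : Matrix (Fin 2) (Fin 2) ℝ → ℝ) = fun F : E => W0 Ψ β₁ β₂ F :=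
    funext (WM_eq Ψ β₁ β₂)
  rw [h2]
  exact h1

/-- reduction to the smooth case -/
theorem moll_red {K p q β₁ β₂ : ℝ}
    (H : ∀ Ψ : V → ℝ, ContDiff ℝ 2 Ψ → SC Ψ K p q → Quasiconvex (WM Ψ β₁ β₂))
    {Ψ : V → ℝ} (h : SC Ψ K p q) : Quasiconvex (WM Ψ β₁ β₂) := by
  refine Q144.MD.limq _ (continuous_WM h.continuous β₁ β₂) fun R ε hR hε => ?_
  obtain ⟨Ψ', h1, h2, h3⟩ := h.approx hR hε
  refine ⟨WM Ψ' β₁ β₂, continuous_WM h1.continuous β₁ β₂, H Ψ' h1 h2, fun F hF => ?_⟩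
  have e : WM Ψ β₁ β₂ F - WM Ψ' β₁ β₂ F = Ψ ![F 0 0, F 1 1] - Ψ' ![F 0 0, F 1 1] := by
    simp only [WM]; ring
  rw [e]
  refine h3 _ fun i => ?_
  fin_cases i
  · exact hF 0 0
  · exact hF 1 1

/-- **Quasiconvexity, unscaled.** -/
theorem qc_unscaled {K p q β₁ β₂ : ℝ} (hp : 0 ≤ p) (hq : 0 ≤ q) (h1 : 0 ≤ β₁) (h2 : 0 ≤ β₂)
    (hK2 : K ^ 2 ≤ 16 * β₂ * p) (hK1 : K ^ 2 ≤ 16 * β₁ * q)
    {Ψ : V → ℝ} (h : SC Ψ K p q) : Quasiconvex (WM Ψ β₁ β₂) := by
  refine moll_red (fun Ψ hΨ h => ?_) h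
  refine qc_of_trig' (WM_eq Ψ β₁ β₂) (continuous_W0 hΨ.continuous β₁ β₂)
    (qctrig_W0 hΨ h1 h2 fun y => ?_)
  obtain ⟨g1, g2, g3, g4⟩ := h.hess hΨ y
  have hm : fderiv ℝ (fderiv ℝ Ψ) y e1 e0 ^ 2 ≤ K ^ 2 := sq_le_sq' (abs_le.1 g3).1 (abs_le.1 g3).2
  refine ⟨by linarith, by linarith, ?_, ?_⟩
  · refine hm.trans (hK2.trans ?_)
    nlinarith
  · rw [g4]
    refine hm.trans (hK1.trans ?_)
    nlinarith

/-- a nonnegative quadratic form -/
theorem quad2 {a b m p q K : ℝ} (hp : 0 ≤ p) (hq : 0 ≤ q) (ha : 2 * p ≤ a) (hb : 2 * q ≤ b)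
    (hm : |m| ≤ K) (hK : K ^ 2 ≤ 4 * (p * q)) (X Y : ℝ) :
    0 ≤ a * X ^ 2 + 2 * m * X * Y + b * Y ^ 2 := by
  have h1 := mul_nonneg (sub_nonneg.2 ha) (sq_nonneg X)
  have h2 := mul_nonneg (sub_nonneg.2 hb) (sq_nonneg Y)
  have hm2 : m ^ 2 ≤ 4 * (p * q) := (sq_le_sq' (abs_le.1 hm).1 (abs_le.1 hm).2).trans hK
  have h3 : 0 ≤ 2 * p * X ^ 2 + 2 * m * X * Y + 2 * q * Y ^ 2 := by
    rcases hp.eq_or_lt with h | h
    · rw [← h] at hm2 ⊢
      have hm0 : m = 0 := by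
        have : m ^ 2 = 0 := le_antisymm (by linarith) (sq_nonneg m)
        exact pow_eq_zero_iff (two_ne_zero) |>.1 this
      rw [hm0]
      have := mul_nonneg hq (sq_nonneg Y)
      nlinarith
    · have h4 : 0 ≤ 2 * p * (2 * p * X ^ 2 + 2 * m * X * Y + 2 * q * Y ^ 2) := by
        have e : 2 * p * (2 * p * X ^ 2 + 2 * m * X * Y + 2 * q * Y ^ 2)
            = (2 * p * X + m * Y) ^ 2 + (4 * (p * q) - m ^ 2) * Y ^ 2 := by ring
        rw [e]
        have := mul_nonneg (sub_nonneg.2 hm2) (sq_nonneg Y)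
        positivity
      exact nonneg_of_mul_nonneg_right h4 (by positivity)
  nlinarith

/-- **The convex part.** -/
theorem qc_convex {K p q : ℝ} (hp : 0 ≤ p) (hq : 0 ≤ q) (hK : K ^ 2 ≤ 4 * (p * q)) {Ψ : V → ℝ}
    (h : SC Ψ K p q) : Quasiconvex (WM Ψ 0 0) := by
  refine moll_red (fun Ψ hΨ h => ?_) h
  refine qc_of_trig' (WM_eq Ψ 0 0) (continuous_W0 hΨ.continuous 0 0)
    (QCtrig_of_cert (θ := fun _ => 0) (contDiff_W0 hΨ 0 0) contDiff_const ?_)
  intro F G₀ G₁ _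
  obtain ⟨g1, g2, g3, g4⟩ := h.hess hΨ (dg F)
  have key : ∀ G : E, 0 ≤ fderiv ℝ (fderiv ℝ (W0 Ψ 0 0)) F G G := by
    intro G
    rw [hess_W0 hΨ]
    have u0 : dg G = G 0 0 • e0 + G 1 1 • e1 := by
      rw [vec_eq (dg G)]; rfl
    rw [u0]
    simp only [map_add, map_smul, _root_.add_apply, FunLike.coe_smul, Pi.smul_apply, smul_eq_mul,
      g4, mul_zero, zero_mul, add_zero]
    have := quad2 hp hq g1 g2 g3 hK (G 0 0) (G 1 1)
    nlinarith
  have e0' : fderiv ℝ (fun _ : E => (0 : E →L[ℝ] ℝ)) F = 0 := by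
    simp
  rw [e0']
  have := key G₀
  have := key G₁
  simp only [_root_.zero_apply, sub_zero, add_zero]
  linarith

end Pool.Agent.Q246.MM
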