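import Pool.Agent.Q246.MM.Flow
import Pool.Agent.W779.Morrey.Iso
import Pool.Agent.Q144.MD.LC

/-!
# The smooth case
-/

set_option autoImplicit false

open MeasureTheory Set Filter Topology

namespace Pool.Agent.Q246.MM

open Pool.Agent.W779.Morrey

/-- the diagonal -/
noncomputable def dg : E →L[ℝ] V :=
  ContinuousLinearMap.pi fun i =>
    (ContinuousLinearMap.proj (R := ℝ) (φ := fun _ : Fin 2 => ℝ) i).comp
      (ContinuousLinearMap.proj (R := ℝ) (φ := fun _ : Fin 2 => V) i)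

theorem dg_apply (F : E) (i : Fin 2) : dg F i = F i i := rfl

/-- the coordinate `(r, l)` -/
noncomputable def co (r l : Fin 2) : E →L[ℝ] ℝ :=
  (ContinuousLinearMap.proj (R := ℝ) (φ := fun _ : Fin 2 => ℝ) l).comp
      (ContinuousLinearMap.proj (R := ℝ) (φ := fun _ : Fin 2 => V) r)

theorem co_apply (F : E) (r l : Fin 2) : co r l F = F r l := rfl

/-- the functional -/
noncomputable def W0 (Ψ : V → ℝ) (β₁ β₂ : ℝ) (F : E) : ℝ :=
  Ψ (dg F) + β₁ * F 0 1 ^ 2 + β₂ * F 1 0 ^ 2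

theorem contDiff_W0 {Ψ : V → ℝ} (hΨ : ContDiff ℝ 2 Ψ) (β₁ β₂ : ℝ) :
    ContDiff ℝ 2 (W0 Ψ β₁ β₂) := by
  have h1 : ContDiff ℝ 2 (fun F : E => Ψ (dg F)) := hΨ.comp dg.contDiff
  have h2 : ContDiff ℝ 2 (fun F : E => β₁ * F 0 1 ^ 2) :=
    contDiff_const.mul ((co 0 1).contDiff.pow 2)
  have h3 : ContDiff ℝ 2 (fun F : E => β₂ * F 1 0 ^ 2) :=
    contDiff_const.mul ((co 1 0).contDiff.pow 2)
  exact (h1.add h2).add h3

theorem continuous_W0 {Ψ : V → ℝ} (hΨ : Continuous Ψ) (β₁ β₂ : ℝ) :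
    Continuous (W0 Ψ β₁ β₂) := by
  have h1 : Continuous (fun F : E => Ψ (dg F)) := hΨ.comp dg.continuous
  have h2 : Continuous (fun F : E => β₁ * F 0 1 ^ 2) :=
    continuous_const.mul ((co 0 1).continuous.pow 2)
  have h3 : Continuous (fun F : E => β₂ * F 1 0 ^ 2) :=
    continuous_const.mul ((co 1 0).continuous.pow 2)
  exact (h1.add h2).add h3

theorem hess_W0 {Ψ : V → ℝ} (hΨ : ContDiff ℝ 2 Ψ) (β₁ β₂ : ℝ) (F G H : E) :
    fderiv ℝ (fderiv ℝ (W0 Ψ β₁ β₂)) F G H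
      = fderiv ℝ (fderiv ℝ Ψ) (dg F) (dg G) (dg H) + 2 * β₁ * G 0 1 * H 0 1
        + 2 * β₂ * G 1 0 * H 1 0 := by
  have hf : ∀ F : E, HasFDerivAt (W0 Ψ β₁ β₂)
      ((fderiv ℝ Ψ (dg F)).comp dg + (2 * β₁ * F 0 1) • co 0 1 + (2 * β₂ * F 1 0) • co 1 0) F := by
    intro F
    have h1 : HasFDerivAt (fun F : E => Ψ (dg F)) ((fderiv ℝ Ψ (dg F)).comp dg) F :=
      ((hΨ.differentiable (by norm_num)) (dg F)).hasFDerivAt.comp F dg.hasFDerivAt
    have h2 : HasFDerivAt (fun F : E => β₁ * F 0 1 ^ 2) ((2 * β₁ * F 0 1) • co 0 1) F := by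
      have := (((co 0 1).hasFDerivAt (x := F)).pow 2).const_mul β₁
      refine this.congr_fderiv ?_
      ext v
      simp [co_apply]
      ring
    have h3 : HasFDerivAt (fun F : E => β₂ * F 1 0 ^ 2) ((2 * β₂ * F 1 0) • co 1 0) F := by
      have := (((co 1 0).hasFDerivAt (x := F)).pow 2).const_mul β₂
      refine this.congr_fderiv ?_
      ext v
      simp [co_apply]
      ring
    exact (h1.add h2).add h3
  have e1 : fderiv ℝ (W0 Ψ β₁ β₂) = fun F : E =>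
      (fderiv ℝ Ψ (dg F)).comp dg + (2 * β₁ * F 0 1) • co 0 1 + (2 * β₂ * F 1 0) • co 1 0 :=
    funext fun F => (hf F).fderiv
  have hP1 : ContDiff ℝ 1 (fderiv ℝ Ψ) := hΨ.fderiv_right (by norm_num)
  have g1 : HasFDerivAt (fun F : E => (fderiv ℝ Ψ (dg F)).comp dg)
      ((((ContinuousLinearMap.compL ℝ E V ℝ).flip dg)).comp
        ((fderiv ℝ (fderiv ℝ Ψ) (dg F)).comp dg)) F := by
    have h1 : HasFDerivAt (fun F : E => fderiv ℝ Ψ (dg F))
        ((fderiv ℝ (fderiv ℝ Ψ) (dg F)).comp dg) F :=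
      ((hP1.differentiable (by norm_num)) (dg F)).hasFDerivAt.comp F dg.hasFDerivAt
    exact ((ContinuousLinearMap.compL ℝ E V ℝ).flip dg).hasFDerivAt.comp F h1
  have g2 : HasFDerivAt (fun F : E => (2 * β₁ * F 0 1) • co 0 1)
      (((2 * β₁) • co 0 1).smulRight (co 0 1)) F := by
    have h1 : HasFDerivAt (fun F : E => 2 * β₁ * F 0 1) ((2 * β₁) • co 0 1) F :=
      ((co 0 1).hasFDerivAt (x := F)).const_mul (2 * β₁)
    exact h1.smul_const (co 0 1)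
  have g3 : HasFDerivAt (fun F : E => (2 * β₂ * F 1 0) • co 1 0)
      (((2 * β₂) • co 1 0).smulRight (co 1 0)) F := by
    have h1 : HasFDerivAt (fun F : E => 2 * β₂ * F 1 0) ((2 * β₂) • co 1 0) F :=
      ((co 1 0).hasFDerivAt (x := F)).const_mul (2 * β₂)
    exact h1.smul_const (co 1 0)
  have g4 : HasFDerivAt (fun F : E => (fderiv ℝ Ψ (dg F)).comp dg + (2 * β₁ * F 0 1) • co 0 1
      + (2 * β₂ * F 1 0) • co 1 0) ((((ContinuousLinearMap.compL ℝ E V ℝ).flip dg)).comp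
        ((fderiv ℝ (fderiv ℝ Ψ) (dg F)).comp dg) + ((2 * β₁) • co 0 1).smulRight (co 0 1)
        + ((2 * β₂) • co 1 0).smulRight (co 1 0)) F := (g1.add g2).add g3
  rw [e1, g4.fderiv]
  simp only [_root_.add_apply, ContinuousLinearMap.comp_apply, ContinuousLinearMap.flip_apply,
    ContinuousLinearMap.compL_apply, ContinuousLinearMap.smulRight_apply,
    FunLike.coe_smul, Pi.smul_apply, smul_eq_mul, co_apply]

/-- a basis -/
noncomputable def e0 : V := Pi.single 0 1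
noncomputable def e1 : V := Pi.single 1 1

theorem vec_eq (v : V) : v = v 0 • e0 + v 1 • e1 := by
  ext i
  fin_cases i <;> simp [e0, e1]

/-- the hypothesis on the second derivatives -/
def Hyp (Ψ : V → ℝ) (β₁ β₂ : ℝ) : Prop := ∀ y : V,
  0 ≤ fderiv ℝ (fderiv ℝ Ψ) y e0 e0 ∧ 0 ≤ fderiv ℝ (fderiv ℝ Ψ) y e1 e1 ∧
  fderiv ℝ (fderiv ℝ Ψ) y e1 e0 ^ 2 ≤ 8 * β₂ * fderiv ℝ (fderiv ℝ Ψ) y e0 e0 ∧
  fderiv ℝ (fderiv ℝ Ψ) y e0 e1 ^ 2 ≤ 8 * β₁ * fderiv ℝ (fderiv ℝ Ψ) y e1 e1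

/-- a nonnegative quadratic form -/
theorem quad_nonneg {a m β : ℝ} (ha : 0 ≤ a) (hβ : 0 ≤ β) (h : m ^ 2 ≤ 8 * β * a) (X Y : ℝ) :
    0 ≤ a * X ^ 2 + m * X * Y + 2 * β * Y ^ 2 := by
  rcases ha.eq_or_lt with ha | ha
  · rw [← ha] at h ⊢
    have hm : m = 0 := by
      have : m ^ 2 = 0 := le_antisymm (by linarith) (sq_nonneg m)
      exact pow_eq_zero_iff (two_ne_zero) |>.1 this
    rw [hm]
    have := mul_nonneg hβ (sq_nonneg Y)
    nlinarith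
  · have h1 : 0 ≤ 4 * a * (a * X ^ 2 + m * X * Y + 2 * β * Y ^ 2) := by
      have h2 : 4 * a * (a * X ^ 2 + m * X * Y + 2 * β * Y ^ 2)
          = (2 * a * X + m * Y) ^ 2 + (8 * β * a - m ^ 2) * Y ^ 2 := by ring
      rw [h2]
      have := mul_nonneg (sub_nonneg.2 h) (sq_nonneg Y)
      positivity
    exact nonneg_of_mul_nonneg_right h1 (by positivity)

theorem cert_W0 {Ψ : V → ℝ} (hΨ : ContDiff ℝ 2 Ψ) {β₁ β₂ : ℝ} (h1 : 0 ≤ β₁) (h2 : 0 ≤ β₂)
    (h : Hyp Ψ β₁ β₂) : RowCert (W0 Ψ β₁ β₂) := by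
  intro F G₀ G₁ hs
  rw [hess_W0 hΨ, hess_W0 hΨ]
  obtain ⟨ha, hb, hm0, hm1⟩ := h (dg F)
  set D := fderiv ℝ (fderiv ℝ Ψ) (dg F) with hD
  have u0 : dg G₀ = G₀ 0 0 • e0 + G₀ 1 1 • e1 := by
    rw [vec_eq (dg G₀)]; rfl
  have u1 : dg (pr 0 G₀) = G₀ 0 0 • e0 := by
    rw [vec_eq (dg (pr 0 G₀)), dg_apply, dg_apply, pr_apply, pr_apply]
    simp
  have v0 : dg G₁ = G₁ 0 0 • e0 + G₁ 1 1 • e1 := by
    rw [vec_eq (dg G₁)]; rfl
  have v1 : dg (pr 1 G₁) = G₁ 1 1 • e1 := by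
    rw [vec_eq (dg (pr 1 G₁)), dg_apply, dg_apply, pr_apply, pr_apply]
    simp
  have s0 := hs 0
  have s1 := hs 1
  have k1 := quad_nonneg ha h2 hm0 (G₀ 0 0) (G₁ 1 0)
  have k2 := quad_nonneg hb h1 hm1 (G₁ 1 1) (G₁ 0 0)
  rw [u0, u1, v0, v1]
  simp only [map_add, map_smul, _root_.add_apply, FunLike.coe_smul, Pi.smul_apply, smul_eq_mul,
    pr_apply, Fin.isValue, if_true, zero_ne_one, one_ne_zero, if_false, mul_zero, add_zero]
  rw [s0, s1]
  nlinarith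

section split

variable {ι : Type} [Fintype ι]

/-- the exponents of the split family -/
def nS (k : ι → Fin 2 → ℤ) (p : ι × Fin 2) : ℕ := (k p.1 p.2 ^ 2).toNat

theorem nS_cast (k : ι → Fin 2 → ℤ) (p : ι × Fin 2) : (nS k p : ℝ) = (k p.1 p.2 : ℝ) ^ 2 := by
  have h : ((nS k p : ℤ)) = k p.1 p.2 ^ 2 := by
    unfold nS
    exact Int.toNat_of_nonneg (by positivity)
  have h2 : (((nS k p : ℤ)) : ℝ) = ((k p.1 p.2 ^ 2 : ℤ) : ℝ) := by rw [h]
  push_cast at h2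
  exact h2

/-- the split amplitudes -/
def cS (c : ι → V) (p : ι × Fin 2) : V := fun r => if r = p.2 then c p.1 r else 0

theorem fit_S (k : ι → Fin 2 → ℤ) (c : ι → V) : Fit (nS k) (fun p => k p.1) (cS c) := by
  intro p r h
  have hr : r = p.2 := by
    by_contra hne
    exact h (by simp [cS, hne])
  rw [nS_cast, hr]

theorem GF_split (k : ι → Fin 2 → ℤ) (c d : ι → V) (x : V) :
    GF (nS k) (fun p => k p.1) (grk (fun p : ι × Fin 2 => k p.1) (cS c))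
      (grk (fun p : ι × Fin 2 => k p.1) (cS d)) 1 x = Fam k (grk k c) (grk k d) 1 x := by
  ext r l
  simp only [GF, Fam, one_pow, one_smul, Finset.sum_apply, Fintype.sum_prod_type, tm, grk, cS,
    Pi.add_apply, Pi.smul_apply, smul_eq_mul, Fin.sum_univ_two]
  refine Finset.sum_congr rfl fun i _ => ?_
  fin_cases r <;> simp

end split

/-- **The smooth case on the torus.** -/
theorem qctrig_W0 {Ψ : V → ℝ} (hΨ : ContDiff ℝ 2 Ψ) {β₁ β₂ : ℝ} (h1 : 0 ≤ β₁) (h2 : 0 ≤ β₂)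
    (h : Hyp Ψ β₁ β₂) : QCtrig (W0 Ψ β₁ β₂) := by
  intro ι _ F₀ k c d
  have hfl := flow_row (contDiff_W0 hΨ β₁ β₂) (cert_W0 hΨ h1 h2 h) F₀ (nS k)
    (fun p : ι × Fin 2 => k p.1) (cS c) (cS d) (fit_S k c) (fit_S k d)
  simp only [GF_split] at hfl
  refine le_trans ?_ hfl
  set n := nS k with hn
  set k' : ι × Fin 2 → Fin 2 → ℤ := fun p => k p.1 with hk'
  set g : V → E := fun x => GF n k' (grk k' (cS c)) (grk k' (cS d)) 0 x with hg
  have hgc : Continuous g := continuous_GF n k' _ _ 0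
  have hd0 : ∀ x r, g x r r = 0 := fun x r => diag_zero n k' (cS c) (cS d) (fit_S k c) (fit_S k d) x r
  have hlow : ∀ x, W0 Ψ β₁ β₂ F₀ + (2 * β₁ * F₀ 0 1 * g x 0 1 + 2 * β₂ * F₀ 1 0 * g x 1 0)
      ≤ W0 Ψ β₁ β₂ (F₀ + g x) := by
    intro x
    have hdg : dg (F₀ + g x) = dg F₀ := by
      rw [map_add]
      have : dg (g x) = 0 := by
        ext i
        rw [dg_apply, hd0 x i]; rfl
      rw [this, add_zero]
    simp only [W0, hdg, Pi.add_apply]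
    have q1 := mul_nonneg h1 (sq_nonneg (g x 0 1))
    have q2 := mul_nonneg h2 (sq_nonneg (g x 1 0))
    nlinarith
  have m1 : ∫ x in Icc (0 : V) 1, g x 0 1 = 0 := mean_zero n k' (cS c) (cS d) 0 0 1
  have m2 : ∫ x in Icc (0 : V) 1, g x 1 0 = 0 := mean_zero n k' (cS c) (cS d) 0 1 0
  have c01 : Continuous (fun x => g x 0 1) := (co 0 1).continuous.comp hgc
  have c10 : Continuous (fun x => g x 1 0) := (co 1 0).continuous.comp hgc
  have i1 : IntegrableOn (fun x => 2 * β₁ * F₀ 0 1 * g x 0 1) (Icc (0 : V) 1) :=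
    (continuous_const.mul c01).integrableOn_Icc
  have i2 : IntegrableOn (fun x => 2 * β₂ * F₀ 1 0 * g x 1 0) (Icc (0 : V) 1) :=
    (continuous_const.mul c10).integrableOn_Icc
  have i0 : IntegrableOn (fun _ : V => W0 Ψ β₁ β₂ F₀) (Icc (0 : V) 1) :=
    continuous_const.integrableOn_Icc
  calc W0 Ψ β₁ β₂ F₀ = ∫ x in Icc (0 : V) 1, (W0 Ψ β₁ β₂ F₀
        + (2 * β₁ * F₀ 0 1 * g x 0 1 + 2 * β₂ * F₀ 1 0 * g x 1 0)) := by
        have i12 : IntegrableOn (fun x => 2 * β₁ * F₀ 0 1 * g x 0 1 + 2 * β₂ * F₀ 1 0 * g x 1 0)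
            (Icc (0 : V) 1) := i1.add i2
        rw [integral_add i0 i12, integral_add i1 i2, integral_const_mul, integral_const_mul, m1, m2]
        simp [Measure.real]
    _ ≤ ∫ x in Icc (0 : V) 1, W0 Ψ β₁ β₂ (F₀ + g x) := by
        refine integral_mono (i0.add (i1.add i2)) ?_ hlow
        exact ((continuous_W0 hΨ.continuous β₁ β₂).comp
          (continuous_const.add hgc)).integrableOn_Icc

end Pool.Agent.Q246.MM
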