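import Pool.Agent.Q246.MM.Sharp

/-!
# Threshold of rank-one convexity, an example which is not polyconvex
-/

set_option autoImplicit false

open MeasureTheory Set Filter Topology

namespace Pool.Agent.Q246.MM

open Pool.Agent.W779.Morrey
open Pool.Agent.Q82.MD (Quasiconvex RankOneConvex)

theorem cl_mul {K : ℝ} (hK : 0 ≤ K) : Cl (fun x y => K * x * y) K := by
  refine ⟨fun y => ?_, fun x => ?_, fun x x' y y' => ?_⟩
  · have h := convex_affine (convexOn_const (0 : ℝ) convex_univ) 0 0 0 (K * y)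
    refine h.congr fun t _ => ?_
    simp only
    ring
  · have h := convex_affine (convexOn_const (0 : ℝ) convex_univ) 0 0 0 (K * x)
    refine h.congr fun t _ => ?_
    simp only
    ring
  · have e : K * x' * y' - K * x' * y - K * x * y' + K * x * y = K * (x' - x) * (y' - y) := by ring
    rw [e, abs_mul, abs_mul, abs_of_nonneg hK]

theorem not_roc {K : ℝ} {p q β₁ β₂ : ℝ} (hp : 0 ≤ p) (hq : 0 ≤ q)
    (h1 : 0 ≤ β₁) (h2 : 0 ≤ β₂) (hK : 2 * (Real.sqrt (p * q) + Real.sqrt (β₁ * β₂)) < K) :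
    ¬ RankOneConvex (W4 (fun x y => K * x * y) p q β₁ β₂) := by
  intro hr
  obtain ⟨ε, hε, hlt⟩ : ∃ ε : ℝ, 0 < ε ∧
      2 * (Real.sqrt ((p + ε) * (q + ε)) + Real.sqrt ((β₁ + ε) * (β₂ + ε))) < K := by
    have hcont : Continuous (fun ε : ℝ =>
        2 * (Real.sqrt ((p + ε) * (q + ε)) + Real.sqrt ((β₁ + ε) * (β₂ + ε)))) := by fun_prop
    have hlim := (hcont.tendsto 0).mono_left (nhdsWithin_le_nhds (s := Ioi 0))
    simp only [add_zero] at hlim
    obtain ⟨ε, h⟩ := ((hlim.eventually_lt_const hK).and self_mem_nhdsWithin).exists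
    exact ⟨ε, h.2, h.1⟩
  have key : ∀ a b : ℝ, 0 ≤ a → 0 ≤ b → ∃ α : ℝ, 0 < α ∧
      a * α ^ 2 + b * (α⁻¹) ^ 2 ≤ 2 * Real.sqrt ((a + ε) * (b + ε)) := by
    intro a b ha hb
    have pa : 0 < a + ε := by positivity
    have pb : 0 < b + ε := by positivity
    set A := Real.sqrt (a + ε) with hA
    set B := Real.sqrt (b + ε) with hB
    have hA0 : 0 < A := Real.sqrt_pos.2 pa
    have hB0 : 0 < B := Real.sqrt_pos.2 pb
    have hA2 : A ^ 2 = a + ε := Real.sq_sqrt pa.le
    have hB2 : B ^ 2 = b + ε := Real.sq_sqrt pb.le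
    have hs : Real.sqrt ((a + ε) * (b + ε)) = A * B := Real.sqrt_mul pa.le _
    refine ⟨Real.sqrt (B / A), Real.sqrt_pos.2 (by positivity), ?_⟩
    have hα : Real.sqrt (B / A) ^ 2 = B / A := Real.sq_sqrt (by positivity)
    rw [inv_pow, hα, hs, inv_div]
    have e1 : a * (B / A) ≤ A * B := by
      calc a * (B / A) ≤ A ^ 2 * (B / A) :=
            mul_le_mul_of_nonneg_right (by rw [hA2]; linarith) (by positivity)
        _ = A * B := by field_simp
    have e2 : b * (A / B) ≤ A * B := by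
      calc b * (A / B) ≤ B ^ 2 * (A / B) :=
            mul_le_mul_of_nonneg_right (by rw [hB2]; linarith) (by positivity)
        _ = A * B := by field_simp
    linarith
  obtain ⟨α, hα, hα2⟩ := key p q hp hq
  obtain ⟨γ, hγ, hγ2⟩ := key β₁ β₂ h1 h2
  set H : Matrix (Fin 2) (Fin 2) ℝ := !![α, γ; -γ⁻¹, -α⁻¹] with hH
  have hrank : ((2 : ℝ) • H).rank = 1 := by
    have hT : (2 : ℝ) • H = Matrix.vecMulVec ![2 * α, -(2 * γ⁻¹)] ![1, γ * α⁻¹] := by
      ext i j
      fin_cases i <;> fin_cases j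
      · simp [hH, Matrix.vecMulVec_apply]
      · simp [hH, Matrix.vecMulVec_apply]
        field_simp
      · simp [hH, Matrix.vecMulVec_apply]
      · simp [hH, Matrix.vecMulVec_apply]
        field_simp
    have hle : ((2 : ℝ) • H).rank ≤ 1 := by
      rw [hT]
      exact Matrix.rank_vecMulVec_le _ _
    have hne : ((2 : ℝ) • H).rank ≠ 0 := by
      intro h
      have h5 : (2 : ℝ) • H = 0 := by
        rw [Matrix.rank, Submodule.finrank_eq_zero, LinearMap.range_eq_bot] at h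
        ext i j
        have h5 := congrArg (fun L : (Fin 2 → ℝ) →ₗ[ℝ] (Fin 2 → ℝ) => L (Pi.single j 1) i) h
        simpa using h5
      have h6 := congrFun (congrFun h5 0) 0
      simp [hH] at h6
      exact hα.ne' h6
    omega
  have hc := hr (-H) ((2 : ℝ) • H) hrank (1 / 2) (by norm_num) (by norm_num)
  have e0 : (1 - (1 / 2 : ℝ)) • (-H) + (1 / 2 : ℝ) • (-H + (2 : ℝ) • H) = 0 := by
    module
  have e1 : -H + (2 : ℝ) • H = H := by module
  rw [e0, e1] at hc
  have w0 : W4 (fun x y => K * x * y) p q β₁ β₂ 0 = 0 := by simp [W4]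
  have w1 : W4 (fun x y => K * x * y) p q β₁ β₂ H = -K + (p * α ^ 2 + q * (α⁻¹) ^ 2)
      + (β₁ * γ ^ 2 + β₂ * (γ⁻¹) ^ 2) := by
    have : α * α⁻¹ = 1 := mul_inv_cancel₀ hα.ne'
    simp only [W4, hH, Matrix.of_apply, Matrix.cons_val', Matrix.cons_val_zero,
      Matrix.cons_val_one]
    have e : K * α * -α⁻¹ = -K := by
      calc K * α * -α⁻¹ = -(K * (α * α⁻¹)) := by ring
        _ = -K := by rw [this, mul_one]
    rw [e]
    ring
  have w2 : W4 (fun x y => K * x * y) p q β₁ β₂ (-H) = -K + (p * α ^ 2 + q * (α⁻¹) ^ 2)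
      + (β₁ * γ ^ 2 + β₂ * (γ⁻¹) ^ 2) := by
    rw [← w1]
    simp only [W4, Matrix.neg_apply]
    ring
  rw [w0, w1, w2] at hc
  linarith

/-- polyconvexity: `W(F) = P(F, det F)` with a convex `P` with values in `ℝ ∪ {+∞}` -/
def Polyconvex (W : Matrix (Fin 2) (Fin 2) ℝ → ℝ) : Prop :=
  ∃ P : Matrix (Fin 2) (Fin 2) ℝ × ℝ → EReal, (∀ z, P z ≠ ⊥) ∧
    (∀ x y, ∀ a b : ℝ, 0 < a → 0 < b → a + b = 1 →
      P (a • x + b • y) ≤ (a : EReal) * P x + (b : EReal) * P y) ∧
    ∀ F, (W F : EReal) = P (F, F.det)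

/-- the example -/
noncomputable def ps (x y : ℝ) : ℝ :=
  2 * x * y - 4 * th 1 x * th 1 y + 4 * max |x| 1 + 4 * max |y| 1

theorem th1 (x : ℝ) : th 1 x = x - max (x - 1) 0 + max (-x - 1) 0 := by
  unfold th
  rcases le_total 1 x with h | h
  · rw [min_eq_left h, max_eq_right (by norm_num), max_eq_left (by linarith),
      max_eq_right (by linarith)]
    ring
  · rw [min_eq_right h]
    rcases le_total (-1) x with h' | h'
    · rw [max_eq_right h', max_eq_right (by linarith), max_eq_right (by linarith)]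
      ring
    · rw [max_eq_left h', max_eq_right (by linarith), max_eq_left (by linarith)]
      ring

theorem max1 (x : ℝ) : max |x| 1 = 1 + max (x - 1) 0 + max (-x - 1) 0 := by
  rcases le_total 1 x with h | h
  · rw [abs_of_nonneg (by linarith), max_eq_left h, max_eq_left (by linarith),
      max_eq_right (by linarith)]
    ring
  · rcases le_total (-1) x with h' | h'
    · rw [max_eq_right (abs_le.2 ⟨h', h⟩), max_eq_right (by linarith), max_eq_right (by linarith)]
      ring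
    · rw [abs_of_nonpos (by linarith), max_eq_left (by linarith), max_eq_right (by linarith),
        max_eq_left (by linarith)]
      ring

theorem ps_symm (x y : ℝ) : ps x y = ps y x := by
  unfold ps
  ring

theorem ps_convex (y : ℝ) : ConvexOn ℝ univ (fun x => ps x y) := by
  have hy := abs_le.1 (th_mem zero_le_one y)
  have h1 : ConvexOn ℝ univ (fun x : ℝ => max (x - 1) 0) := by
    have a : ConvexOn ℝ univ (fun x : ℝ => x - 1) := by
      have := convex_affine (convexOn_const (0 : ℝ) convex_univ) 0 0 (-1) 1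
      refine this.congr fun t _ => ?_
      simp only
      ring
    exact a.sup (convexOn_const _ convex_univ)
  have h2 : ConvexOn ℝ univ (fun x : ℝ => max (-x - 1) 0) := by
    have a : ConvexOn ℝ univ (fun x : ℝ => -x - 1) := by
      have := convex_affine (convexOn_const (0 : ℝ) convex_univ) 0 0 (-1) (-1)
      refine this.congr fun t _ => ?_
      simp only
      ring
    exact a.sup (convexOn_const _ convex_univ)
  have h3 : ConvexOn ℝ univ (fun x : ℝ => (4 + 4 * max |y| 1) + (2 * y - 4 * th 1 y) * x) := by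
    have := convex_affine (convexOn_const (0 : ℝ) convex_univ) 0 0 (4 + 4 * max |y| 1)
      (2 * y - 4 * th 1 y)
    refine this.congr fun t _ => ?_
    simp only
    ring
  have h4 := (h3.add (h1.smul (by linarith : 0 ≤ 4 + 4 * th 1 y))).add
    (h2.smul (by linarith : 0 ≤ 4 - 4 * th 1 y))
  refine h4.congr fun x _ => ?_
  simp only [Pi.add_apply, smul_eq_mul, ps]
  rw [max1 x, th1 x]
  ring

theorem th_slope (x x' : ℝ) : ∃ c : ℝ, 0 ≤ c ∧ c ≤ 1 ∧ th 1 x' - th 1 x = c * (x' - x) := by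
  by_cases h : x' = x
  · exact ⟨0, le_rfl, zero_le_one, by rw [h]; ring⟩
  have hne : x' - x ≠ 0 := sub_ne_zero.2 h
  refine ⟨(th 1 x' - th 1 x) / (x' - x), ?_, ?_, by field_simp⟩
  · rcases lt_or_gt_of_ne hne with h' | h'
    · have : th 1 x' ≤ th 1 x := by
        unfold th
        exact max_le_max le_rfl (min_le_min le_rfl (by linarith))
      exact div_nonneg_of_nonpos (by linarith) h'.le
    · have : th 1 x ≤ th 1 x' := by
        unfold th
        exact max_le_max le_rfl (min_le_min le_rfl (by linarith))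
      exact div_nonneg (by linarith) h'.le
  · have h1 := th_lip 1 x' x
    have h2 : |(th 1 x' - th 1 x) / (x' - x)| ≤ 1 := by
      rw [abs_div, div_le_one (abs_pos.2 hne)]
      exact h1
    exact (abs_le.1 h2).2

theorem cl_ps : Cl ps 2 := by
  refine ⟨ps_convex, fun x => ?_, fun x x' y y' => ?_⟩
  · have h := ps_convex x
    refine h.congr fun y _ => ?_
    exact ps_symm y x
  · obtain ⟨c, hc0, hc1, hc⟩ := th_slope x x'
    obtain ⟨d, hd0, hd1, hd⟩ := th_slope y y'
    have e : ps x' y' - ps x' y - ps x y' + ps x y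
        = 2 * (x' - x) * (y' - y) - 4 * (th 1 x' - th 1 x) * (th 1 y' - th 1 y) := by
      unfold ps
      ring
    rw [e, hc, hd]
    have e2 : 2 * (x' - x) * (y' - y) - 4 * (c * (x' - x)) * (d * (y' - y))
        = (2 - 4 * (c * d)) * ((x' - x) * (y' - y)) := by ring
    rw [e2, abs_mul, abs_mul, mul_assoc]
    have h1 : 0 ≤ c * d := mul_nonneg hc0 hd0
    have h2 : c * d ≤ 1 := by nlinarith
    have h3 : |2 - 4 * (c * d)| ≤ 2 := by
      rw [abs_le]
      constructor <;> linarith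
    exact mul_le_mul_of_nonneg_right h3 (by positivity)

theorem not_poly : ¬ Polyconvex (W4 ps (1 / 2) (1 / 2) (1 / 2) (1 / 2)) := by
  rintro ⟨g, -, hg, hW⟩
  have t1 : th 1 (1 : ℝ) = 1 := th_eq (by norm_num)
  have t0 : th 1 (0 : ℝ) = 0 := th_eq (by norm_num)
  have tm1 : th 1 (-1 : ℝ) = -1 := th_eq (by norm_num)
  have t4 : th 1 (4 : ℝ) = 1 := by
    rw [th, min_eq_left (by norm_num), max_eq_right (by norm_num)]
  have tm4 : th 1 (-4 : ℝ) = -1 := by
    rw [th, min_eq_right (by norm_num), max_eq_left (by norm_num)]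
  have v0 : W4 ps (1 / 2) (1 / 2) (1 / 2) (1 / 2) 0 = 8 := by
    simp [W4, ps, t0]
    norm_num
  set A : Matrix (Fin 2) (Fin 2) ℝ := !![4, 0; 0, -4] with hA
  set B : Matrix (Fin 2) (Fin 2) ℝ := !![1, 0; 0, 1] with hB
  have vA : W4 ps (1 / 2) (1 / 2) (1 / 2) (1 / 2) A = 20 := by
    simp [W4, ps, hA, t4, tm4]
    norm_num
  have vA' : W4 ps (1 / 2) (1 / 2) (1 / 2) (1 / 2) (-A) = 20 := by
    simp [W4, ps, hA, t4, tm4]
    norm_num
  have vB : W4 ps (1 / 2) (1 / 2) (1 / 2) (1 / 2) B = 7 := by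
    simp [W4, ps, hB, t1]
    norm_num
  have vB' : W4 ps (1 / 2) (1 / 2) (1 / 2) (1 / 2) (-B) = 7 := by
    simp [W4, ps, hB, tm1]
    norm_num
  have w0 := hW 0
  have wA := hW A
  have wA' := hW (-A)
  have wB := hW B
  have wB' := hW (-B)
  have dA : A.det = -16 := by
    simp [hA, Matrix.det_fin_two]
    norm_num
  have dA' : (-A).det = -16 := by
    simp [hA, Matrix.det_fin_two]
    norm_num
  have dB : B.det = 1 := by simp [hB, Matrix.det_fin_two]
  have dB' : (-B).det = 1 := by simp [hB, Matrix.det_fin_two]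
  rw [v0, Matrix.det_zero] at w0
  rw [vA, dA] at wA
  rw [vA', dA'] at wA'
  rw [vB, dB] at wB
  rw [vB', dB'] at wB'
  have c1 := hg (A, (-16 : ℝ)) (-A, (-16 : ℝ)) (1 / 2) (1 / 2) (by norm_num) (by norm_num)
    (by norm_num)
  have c2 := hg (B, (1 : ℝ)) (-B, (1 : ℝ)) (1 / 2) (1 / 2) (by norm_num) (by norm_num)
    (by norm_num)
  have e1 : (1 / 2 : ℝ) • (A, (-16 : ℝ)) + (1 / 2 : ℝ) • (-A, (-16 : ℝ)) = (0, -16) := by
    ext
    · simp
    · simp
      norm_num
  have e2 : (1 / 2 : ℝ) • (B, (1 : ℝ)) + (1 / 2 : ℝ) • (-B, (1 : ℝ)) = (0, 1) := by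
    ext
    · simp
    · simp
      norm_num
  rw [e1, ← wA, ← wA'] at c1
  rw [e2, ← wB, ← wB'] at c2
  have c3 := hg ((0 : Matrix (Fin 2) (Fin 2) ℝ), (-16 : ℝ)) (0, (1 : ℝ)) (1 / 17) (16 / 17)
    (by norm_num) (by norm_num) (by norm_num)
  have e3 : (1 / 17 : ℝ) • ((0 : Matrix (Fin 2) (Fin 2) ℝ), (-16 : ℝ))
      + (16 / 17 : ℝ) • ((0 : Matrix (Fin 2) (Fin 2) ℝ), (1 : ℝ)) = (0, 0) := by
    ext
    · simp
    · simp
      norm_num
  rw [e3, ← w0] at c3
  rw [← EReal.coe_mul, ← EReal.coe_add] at c1 c2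
  have c4 : (((1 / 17 : ℝ)) : EReal) * g (0, -16) + ((16 / 17 : ℝ) : EReal) * g (0, 1)
      ≤ ((1 / 17 : ℝ) : EReal) * ((1 / 2 * 20 + 1 / 2 * 20 : ℝ) : EReal)
        + ((16 / 17 : ℝ) : EReal) * ((1 / 2 * 7 + 1 / 2 * 7 : ℝ) : EReal) := by
    refine add_le_add (mul_le_mul_of_nonneg_left c1 ?_) (mul_le_mul_of_nonneg_left c2 ?_)
    · exact_mod_cast (by norm_num : (0 : ℝ) ≤ 1 / 17)
    · exact_mod_cast (by norm_num : (0 : ℝ) ≤ 16 / 17)
  have c5 := c3.trans c4
  rw [← EReal.coe_mul, ← EReal.coe_mul, ← EReal.coe_add] at c5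
  have c6 : (8 : ℝ) ≤ 1 / 17 * (1 / 2 * 20 + 1 / 2 * 20) + 16 / 17 * (1 / 2 * 7 + 1 / 2 * 7) :=
    EReal.coe_le_coe_iff.1 c5
  norm_num at c6

end Pool.Agent.Q246.MM
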