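import Pool.Agent.W779.Morrey.Trig

/-!
# Row-wise heat flow

Trigonometric gradient fields whose row `r` diffuses in the direction `x_r` only.  The proofs adapt
`Pool.Agent.W779.Morrey.Trig` and `Pool.Agent.W779.Morrey.Flow` (isotropic heat flow).
-/

set_option autoImplicit false

open MeasureTheory Set Filter Topology

namespace Pool.Agent.Q246.MM

open Pool.Agent.W779.Morrey

/-- projection on row `r` -/
noncomputable def pr (r : Fin 2) : E →L[ℝ] E :=
  ContinuousLinearMap.pi fun i =>
    if i = r then ContinuousLinearMap.proj (R := ℝ) (φ := fun _ : Fin 2 => V) i else 0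

theorem pr_apply (r : Fin 2) (F : E) (i l : Fin 2) : pr r F i l = if i = r then F i l else 0 := by
  unfold pr
  by_cases h : i = r <;> simp [h]

section fam

variable {ι : Type*} [Fintype ι]

/-- A trigonometric polynomial with damping exponents `n`. -/
noncomputable def GF (n : ι → ℕ) (k : ι → Fin 2 → ℤ) (A B : ι → E) (s : ℝ) (x : V) : E :=
  ∑ i, s ^ n i • tm (k i) (A i) (B i) x

theorem GF_periodic (n : ι → ℕ) (k : ι → Fin 2 → ℤ) (A B : ι → E) (s : ℝ) (x : V) (j : Fin 2) :
    GF n k A B s (x + Pi.single j 1) = GF n k A B s x := by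
  unfold GF
  simp only [tm_periodic]

theorem hasFDerivAt_GF (n : ι → ℕ) (k : ι → Fin 2 → ℤ) (A B : ι → E) (s : ℝ) (x : V) :
    HasFDerivAt (GF n k A B s) (mk' fun j => GF n k (dA k B j) (dB k A j) s x) x := by
  have h := HasFDerivAt.fun_sum (u := Finset.univ)
    (fun (i : ι) _ => (hasFDerivAt_tm (k i) (A i) (B i) x).const_smul (s ^ n i))
  refine h.congr_fderiv ?_
  ext v r l
  simp only [mk', GF, dA, dB, Fin.sum_univ_two, _root_.sum_apply,
    FunLike.coe_smul, _root_.add_apply, Pi.smul_apply,
    ContinuousLinearMap.smulRight_apply, ContinuousLinearMap.proj_apply, Finset.sum_apply,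
    Pi.add_apply, smul_eq_mul, Finset.mul_sum, ← Finset.sum_add_distrib]
  refine Finset.sum_congr rfl fun i _ => ?_
  ring

theorem continuous_GF (n : ι → ℕ) (k : ι → Fin 2 → ℤ) (A B : ι → E) (s : ℝ) :
    Continuous (GF n k A B s) :=
  continuous_iff_continuousAt.2 fun x => (hasFDerivAt_GF n k A B s x).continuousAt

theorem continuous_GF_prod (n : ι → ℕ) (k : ι → Fin 2 → ℤ) (A B : ι → E) :
    Continuous (fun p : ℝ × V => GF n k A B p.1 p.2) := by
  unfold GF
  refine continuous_finsetSum _ fun i _ => ?_
  exact (continuous_fst.pow _).smul ((continuous_tm _ _ _).comp continuous_snd)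

/-- the derivative in the parameter -/
noncomputable def dsGF (n : ι → ℕ) (k : ι → Fin 2 → ℤ) (A B : ι → E) (s : ℝ) (x : V) : E :=
  ∑ i, ((n i : ℝ) * s ^ (n i - 1)) • tm (k i) (A i) (B i) x

theorem hasDerivAt_GF (n : ι → ℕ) (k : ι → Fin 2 → ℤ) (A B : ι → E) (s : ℝ) (x : V) :
    HasDerivAt (fun s => GF n k A B s x) (dsGF n k A B s x) s := by
  unfold GF dsGF
  refine HasDerivAt.fun_sum fun i _ => ?_
  exact (hasDerivAt_pow _ s).smul_const _

theorem continuous_dsGF_prod (n : ι → ℕ) (k : ι → Fin 2 → ℤ) (A B : ι → E) :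
    Continuous (fun p : ℝ × V => dsGF n k A B p.1 p.2) := by
  unfold dsGF
  refine continuous_finsetSum _ fun i _ => ?_
  exact (continuous_const.mul (continuous_fst.pow _)).smul
    ((continuous_tm _ _ _).comp continuous_snd)

/-- the exponents fit the amplitudes: row `r` diffuses in the direction `r` -/
def Fit (n : ι → ℕ) (k : ι → Fin 2 → ℤ) (c : ι → V) : Prop :=
  ∀ i r, c i r ≠ 0 → (n i : ℝ) = (k i r : ℝ) ^ 2

/-- the equation of the flow -/
theorem heatRow (n : ι → ℕ) (k : ι → Fin 2 → ℤ) (c d : ι → V) (hc : Fit n k c) (hd : Fit n k d)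
    (s : ℝ) (x : V) :
    pr 0 (GF n k (dA k (dB k (grk k c) 0) 0) (dB k (dA k (grk k d) 0) 0) s x)
      + pr 1 (GF n k (dA k (dB k (grk k c) 1) 1) (dB k (dA k (grk k d) 1) 1) s x)
      = -(4 * Real.pi ^ 2 * s) • dsGF n k (grk k c) (grk k d) s x := by
  have h1 : ∀ i, s * ((n i : ℝ) * s ^ (n i - 1)) = (n i : ℝ) * s ^ (n i) := by
    intro i
    rcases Nat.eq_zero_or_pos (n i) with h | h
    · simp [h]
    · obtain ⟨m, hm⟩ := Nat.exists_eq_succ_of_ne_zero h.ne'
      rw [hm]
      simp only [Nat.succ_eq_add_one, Nat.add_sub_cancel, pow_succ]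
      ring
  have key : ∀ r l, GF n k (dA k (dB k (grk k c) r) r) (dB k (dA k (grk k d) r) r) s x r l
      = -(4 * Real.pi ^ 2 * s) * dsGF n k (grk k c) (grk k d) s x r l := by
    intro r l
    unfold GF dsGF
    simp only [Finset.sum_apply, Pi.smul_apply, smul_eq_mul, Finset.mul_sum]
    refine Finset.sum_congr rfl fun i _ => ?_
    have e1 : (n i : ℝ) * c i r = (k i r : ℝ) ^ 2 * c i r := by
      by_cases h : c i r = 0
      · simp [h]
      · rw [hc i r h]
    have e2 : (n i : ℝ) * d i r = (k i r : ℝ) ^ 2 * d i r := by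
      by_cases h : d i r = 0
      · simp [h]
      · rw [hd i r h]
    simp only [tm, dA, dB, grk, Pi.add_apply, Pi.smul_apply, Pi.neg_apply, smul_eq_mul]
    have h1' := h1 i
    calc _ = -(4 * Real.pi ^ 2) * s ^ n i * (k i l : ℝ)
          * (Real.cos (ph (k i) x) * ((k i r : ℝ) ^ 2 * c i r)
            + Real.sin (ph (k i) x) * ((k i r : ℝ) ^ 2 * d i r)) := by ring
      _ = -(4 * Real.pi ^ 2) * s ^ n i * (k i l : ℝ)
          * (Real.cos (ph (k i) x) * ((n i : ℝ) * c i r)
            + Real.sin (ph (k i) x) * ((n i : ℝ) * d i r)) := by rw [e1, e2]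
      _ = -(4 * Real.pi ^ 2) * ((n i : ℝ) * s ^ n i) * (k i l : ℝ)
          * (Real.cos (ph (k i) x) * c i r + Real.sin (ph (k i) x) * d i r) := by ring
      _ = -(4 * Real.pi ^ 2) * (s * ((n i : ℝ) * s ^ (n i - 1))) * (k i l : ℝ)
          * (Real.cos (ph (k i) x) * c i r + Real.sin (ph (k i) x) * d i r) := by rw [h1']
      _ = _ := by ring
  ext r l
  have k0 := key 0 l
  have k1 := key 1 l
  simp only [Pi.add_apply, pr_apply, Pi.smul_apply, smul_eq_mul]
  fin_cases r
  · simp only [Fin.zero_eta, Fin.isValue, if_true, zero_ne_one, if_false, add_zero]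
    exact k0
  · simp only [Fin.mk_one, Fin.isValue, if_true, one_ne_zero, if_false, zero_add]
    exact k1

end fam

/-- the certificate for the row-wise flow -/
def RowCert (W : E → ℝ) : Prop :=
  ∀ F G₀ G₁ : E, (∀ r, G₀ r 1 = G₁ r 0) →
    0 ≤ fderiv ℝ (fderiv ℝ W) F G₀ (pr 0 G₀) + fderiv ℝ (fderiv ℝ W) F G₁ (pr 1 G₁)

theorem dissipationRow {W : E → ℝ} (hW : ContDiff ℝ 2 W) (F : V → E) (G : Fin 2 → V → E)
    (G2 : Fin 2 → Fin 2 → V → E)
    (hF : ∀ x, HasFDerivAt F (mk' fun j => G j x) x)
    (hG : ∀ j x, HasFDerivAt (G j) (mk' fun l => G2 j l x) x)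
    (hG2 : ∀ j l, Continuous (G2 j l))
    (hpF : ∀ i x, F (x + Pi.single i 1) = F x)
    (hpG : ∀ j i x, G j (x + Pi.single i 1) = G j x) :
    ∫ x in Icc (0 : V) 1,
      ((fderiv ℝ (fderiv ℝ W) (F x) (G 0 x) (pr 0 (G 0 x))
        + fderiv ℝ (fderiv ℝ W) (F x) (G 1 x) (pr 1 (G 1 x)))
      + fderiv ℝ W (F x) (pr 0 (G2 0 0 x) + pr 1 (G2 1 1 x))) = 0 := by
  have hFc : Continuous F := continuous_iff_continuousAt.2 fun x => (hF x).continuousAt
  have hGc : ∀ j, Continuous (G j) := fun j =>
    continuous_iff_continuousAt.2 fun x => (hG j x).continuousAt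
  have hP1 : ContDiff ℝ 1 (fderiv ℝ W) := hW.fderiv_right (by norm_num)
  have hPd : ∀ y, HasFDerivAt (fderiv ℝ W) (fderiv ℝ (fderiv ℝ W) y) y := fun y =>
    (hP1.differentiable (by norm_num) y).hasFDerivAt
  have hHc : Continuous (fderiv ℝ (fderiv ℝ W)) := hP1.continuous_fderiv (by norm_num)
  set P := fderiv ℝ W with hPdef
  set H := fderiv ℝ P with hHdef
  have d0 : ∀ j x, HasFDerivAt (fun x => pr j (G j x)) ((pr j).comp (mk' fun l => G2 j l x)) x :=
    fun j x => (pr j).hasFDerivAt.comp x (hG j x)
  have d1 : ∀ j x, HasFDerivAt (fun x => P (F x) (pr j (G j x)))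
      ((P (F x)).comp ((pr j).comp (mk' fun l => G2 j l x))
        + ((H (F x)).comp (mk' fun j => G j x)).flip (pr j (G j x)))
      x := fun j x => ((hPd (F x)).comp x (hF x)).clm_apply (d0 j x)
  have hmkc : ∀ (K : Fin 2 → V → E), (∀ j, Continuous (K j)) →
      Continuous (fun x => mk' fun j => K j x) := by
    intro K hK
    unfold mk'
    refine continuous_finsetSum _ fun j _ => ?_
    exact (ContinuousLinearMap.smulRightL ℝ V E
      (ContinuousLinearMap.proj (R := ℝ) (φ := fun _ : Fin 2 => ℝ) j)).continuous.comp (hK j)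
  have c1 : ∀ j, Continuous (fun x => (P (F x)).comp ((pr j).comp (mk' fun l => G2 j l x))
      + ((H (F x)).comp (mk' fun j => G j x)).flip (pr j (G j x))) := by
    intro j
    have a1 := hmkc (G2 j) (hG2 j)
    have a2 := hmkc G hGc
    have a3 : Continuous (fun x => P (F x)) := hP1.continuous.comp hFc
    have a4 : Continuous (fun x => H (F x)) := hHc.comp hFc
    refine (a3.clm_comp (continuous_const.clm_comp a1)).add ?_
    have a5 := a4.clm_comp a2
    have a6 : Continuous (fun x => ((H (F x)).comp (mk' fun j => G j x)).flip) :=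
      (ContinuousLinearMap.flipₗᵢ ℝ V E ℝ).continuous.comp a5
    exact a6.clm_apply ((pr j).continuous.comp (hGc j))
  have key := integral_div_periodic
    (fun j => fun x => P (F x) (pr j (G j x)))
    (fun j => fun x => (P (F x)).comp ((pr j).comp (mk' fun l => G2 j l x))
        + ((H (F x)).comp (mk' fun j => G j x)).flip (pr j (G j x)))
    (fun j x => d1 j x) (fun j => c1 j)
    (fun i x _ => by simp only [hpF, hpG])
  rw [← key]
  refine integral_congr_ae (Eventually.of_forall fun x => ?_)
  simp only [Fin.sum_univ_two, _root_.add_apply, ContinuousLinearMap.comp_apply,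
    ContinuousLinearMap.flip_apply, mk'_single, map_add]
  ring

section flow

variable {ι : Type*} [Fintype ι]

/-- **Monotonicity along the row-wise flow.** -/
theorem flow_row {W : E → ℝ} (hW : ContDiff ℝ 2 W) (hcert : RowCert W) (F₀ : E)
    (n : ι → ℕ) (k : ι → Fin 2 → ℤ) (c d : ι → V) (hc : Fit n k c) (hd' : Fit n k d) :
    ∫ x in Icc (0 : V) 1, W (F₀ + GF n k (grk k c) (grk k d) 0 x)
      ≤ ∫ x in Icc (0 : V) 1, W (F₀ + GF n k (grk k c) (grk k d) 1 x) := by
  set A := grk k c with hA
  set B := grk k d with hB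
  have hP1 : ContDiff ℝ 1 (fderiv ℝ W) := hW.fderiv_right (by norm_num)
  have hPc : Continuous (fderiv ℝ W) := hP1.continuous
  have hd : ∀ x s, HasDerivAt (fun s => W (F₀ + GF n k A B s x))
      (fderiv ℝ W (F₀ + GF n k A B s x) (dsGF n k A B s x)) s := by
    intro x s
    have h1 : HasFDerivAt W (fderiv ℝ W (F₀ + GF n k A B s x)) (F₀ + GF n k A B s x) :=
      (hW.differentiable (by norm_num) _).hasFDerivAt
    exact h1.comp_hasDerivAt s ((hasDerivAt_GF n k A B s x).const_add F₀)
  have hcont : Continuous (fun p : ℝ × V =>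
      fderiv ℝ W (F₀ + GF n k A B p.1 p.2) (dsGF n k A B p.1 p.2)) :=
    (hPc.comp (continuous_const.add (continuous_GF_prod n k A B))).clm_apply
      (continuous_dsGF_prod n k A B)
  have hftc : ∀ x, ∫ s in (0:ℝ)..1, fderiv ℝ W (F₀ + GF n k A B s x) (dsGF n k A B s x)
      = W (F₀ + GF n k A B 1 x) - W (F₀ + GF n k A B 0 x) := by
    intro x
    rw [intervalIntegral.integral_eq_sub_of_hasDerivAt (fun s _ => hd x s)]
    refine Continuous.intervalIntegrable ?_ _ _
    exact hcont.comp (continuous_id.prodMk continuous_const)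
  have hint : Integrable (Function.uncurry fun (s : ℝ) (x : V) =>
      fderiv ℝ W (F₀ + GF n k A B s x) (dsGF n k A B s x))
      ((volume.restrict (Set.uIoc (0:ℝ) 1)).prod (volume.restrict (Icc (0 : V) 1))) := by
    rw [Measure.prod_restrict]
    have h1 : IntegrableOn (Function.uncurry fun (s : ℝ) (x : V) =>
      fderiv ℝ W (F₀ + GF n k A B s x) (dsGF n k A B s x)) (Icc (0:ℝ) 1 ×ˢ Icc (0:V) 1)
      (volume.prod volume) := by
      refine ContinuousOn.integrableOn_compact (isCompact_Icc.prod isCompact_Icc) ?_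
      exact hcont.continuousOn
    refine h1.mono_set (Set.prod_mono ?_ le_rfl)
    rw [uIoc_of_le zero_le_one]
    exact Ioc_subset_Icc_self
  have hswap := intervalIntegral_integral_swap hint
  have hpos : 0 ≤ ∫ s in (0:ℝ)..1, ∫ x in Icc (0:V) 1,
      fderiv ℝ W (F₀ + GF n k A B s x) (dsGF n k A B s x) := by
    refine intervalIntegral.integral_nonneg_of_ae_restrict zero_le_one ?_
    rw [EventuallyLE, ae_restrict_iff' measurableSet_Icc]
    filter_upwards [Measure.ae_ne volume (0:ℝ)] with s hs0 hs
    have hs1 : 0 < s := lt_of_le_of_ne hs.1 (Ne.symm hs0)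
    have hdis := dissipationRow hW (fun x => F₀ + GF n k A B s x)
      (fun j => GF n k (dA k B j) (dB k A j) s)
      (fun j l => GF n k (dA k (dB k A j) l) (dB k (dA k B j) l) s)
      (fun x => (hasFDerivAt_GF n k A B s x).const_add F₀)
      (fun j x => hasFDerivAt_GF n k _ _ s x)
      (fun j l => continuous_GF n k _ _ s)
      (fun i x => by rw [GF_periodic])
      (fun j i x => by rw [GF_periodic])
    have hHc : Continuous (fderiv ℝ (fderiv ℝ W)) := hP1.continuous_fderiv (by norm_num)
    have hFc : Continuous (fun x => F₀ + GF n k A B s x) :=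
      continuous_const.add (continuous_GF n k A B s)
    have hGc : ∀ j, Continuous (GF n k (dA k B j) (dB k A j) s) := fun j => continuous_GF n k _ _ s
    have hG2c : ∀ j l, Continuous (GF n k (dA k (dB k A j) l) (dB k (dA k B j) l) s) :=
      fun j l => continuous_GF n k _ _ s
    have hpc : Continuous (fun x => fderiv ℝ W (F₀ + GF n k A B s x) (dsGF n k A B s x)) :=
      hcont.comp (continuous_const.prodMk continuous_id)
    have hpos2 : 0 < 4 * Real.pi ^ 2 * s := by positivity
    have hle : ∫ x in Icc (0:V) 1, -(4 * Real.pi ^ 2 * s)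
        * fderiv ℝ W (F₀ + GF n k A B s x) (dsGF n k A B s x) ≤ 0 := by
      refine (integral_mono ?_ ?_ fun x => ?_).trans hdis.le
      · exact (continuous_const.mul hpc).integrableOn_Icc
      · refine Continuous.integrableOn_Icc ?_
        refine Continuous.add (Continuous.add ?_ ?_) ?_
        · exact ((hHc.comp hFc).clm_apply (hGc 0)).clm_apply ((pr 0).continuous.comp (hGc 0))
        · exact ((hHc.comp hFc).clm_apply (hGc 1)).clm_apply ((pr 1).continuous.comp (hGc 1))
        · exact (hPc.comp hFc).clm_apply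
            (((pr 0).continuous.comp (hG2c 0 0)).add ((pr 1).continuous.comp (hG2c 1 1)))
      · have hcc := hcert (F₀ + GF n k A B s x) (GF n k (dA k B 0) (dB k A 0) s x)
          (GF n k (dA k B 1) (dB k A 1) s x) (fun r => by
            simp only [GF, Finset.sum_apply, Pi.smul_apply, tm, dA, dB, Pi.add_apply, Pi.neg_apply,
              smul_eq_mul, hA, hB, grk]
            refine Finset.sum_congr rfl fun i _ => ?_
            ring)
        have hh := heatRow n k c d hc hd' s x
        rw [← hA, ← hB] at hh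
        simp only
        rw [hh, map_smul, smul_eq_mul]
        linarith
    rw [integral_const_mul] at hle
    simp only [Pi.zero_apply]
    by_contra hneg
    push Not at hneg
    have := mul_pos_of_neg_of_neg (neg_lt_zero.2 hpos2) hneg
    linarith
  have hfin : ∫ x in Icc (0 : V) 1, (W (F₀ + GF n k A B 1 x) - W (F₀ + GF n k A B 0 x))
      = (∫ x in Icc (0 : V) 1, W (F₀ + GF n k A B 1 x))
        - ∫ x in Icc (0 : V) 1, W (F₀ + GF n k A B 0 x) := by
    rw [integral_sub]
    · exact (hW.continuous.comp (continuous_const.add (continuous_GF n k A B 1))).integrableOn_Icc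
    · exact (hW.continuous.comp (continuous_const.add (continuous_GF n k A B 0))).integrableOn_Icc
  have hfin2 : ∫ x in Icc (0 : V) 1, (W (F₀ + GF n k A B 1 x) - W (F₀ + GF n k A B 0 x))
      = ∫ s in (0:ℝ)..1, ∫ x in Icc (0:V) 1,
      fderiv ℝ W (F₀ + GF n k A B s x) (dsGF n k A B s x) := by
    rw [hswap]
    exact integral_congr_ae (Eventually.of_forall fun x => (hftc x).symm)
  linarith

/-- the entries of the field have mean zero -/
theorem mean_zero (n : ι → ℕ) (k : ι → Fin 2 → ℤ) (c d : ι → V) (s : ℝ) (r l : Fin 2) :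
    ∫ x in Icc (0 : V) 1, GF n k (grk k c) (grk k d) s x r l = 0 := by
  set A' : ι → E := fun i _ _ => -(d i r) with hA'
  set B' : ι → E := fun i _ _ => c i r with hB'
  have hder : ∀ x, HasFDerivAt (fun x => GF n k A' B' s x r l)
      (((ContinuousLinearMap.proj (R := ℝ) (φ := fun _ : Fin 2 => ℝ) l).comp
        (ContinuousLinearMap.proj (R := ℝ) (φ := fun _ : Fin 2 => V) r)).comp
        (mk' fun j => GF n k (dA k B' j) (dB k A' j) s x)) x := by
    intro x
    exact ((ContinuousLinearMap.proj (R := ℝ) (φ := fun _ : Fin 2 => ℝ) l).comp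
        (ContinuousLinearMap.proj (R := ℝ) (φ := fun _ : Fin 2 => V) r)).hasFDerivAt.comp x
        (hasFDerivAt_GF n k A' B' s x)
  have hmkc : Continuous (fun x => mk' fun j => GF n k (dA k B' j) (dB k A' j) s x) := by
    unfold mk'
    refine continuous_finsetSum _ fun j _ => ?_
    exact (ContinuousLinearMap.smulRightL ℝ V E
      (ContinuousLinearMap.proj (R := ℝ) (φ := fun _ : Fin 2 => ℝ) j)).continuous.comp
      (continuous_GF n k _ _ s)
  have key := integral_div_periodic
    (fun j => if j = l then fun x => GF n k A' B' s x r l else fun _ => 0)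
    (fun j => if j = l then fun x =>
      (((ContinuousLinearMap.proj (R := ℝ) (φ := fun _ : Fin 2 => ℝ) l).comp
        (ContinuousLinearMap.proj (R := ℝ) (φ := fun _ : Fin 2 => V) r)).comp
        (mk' fun j => GF n k (dA k B' j) (dB k A' j) s x)) else fun _ => 0)
    (by
      intro j x
      by_cases h : j = l
      · simp only [h, if_true]
        exact hder x
      · simp only [h, if_false]
        exact hasFDerivAt_const _ _)
    (by
      intro j
      by_cases h : j = l
      · simp only [h, if_true]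
        exact continuous_const.clm_comp hmkc
      · simp only [h, if_false]
        exact continuous_const)
    (by
      intro j x _
      by_cases h : j = l
      · simp only [h, if_true, GF_periodic]
      · simp only [h, if_false])
  have h2 : ∫ x in Icc (0 : V) 1, 2 * Real.pi * GF n k (grk k c) (grk k d) s x r l = 0 := by
    rw [← key]
    refine integral_congr_ae (Eventually.of_forall fun x => ?_)
    have e : GF n k (dA k B' l) (dB k A' l) s x r l
        = 2 * Real.pi * GF n k (grk k c) (grk k d) s x r l := by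
      simp only [GF, Finset.sum_apply, Pi.smul_apply, tm, dA, dB, Pi.add_apply, Pi.neg_apply,
        smul_eq_mul, hA', hB', grk, Finset.mul_sum]
      refine Finset.sum_congr rfl fun i _ => ?_
      ring
    simp only
    rw [Finset.sum_eq_single l]
    · simp only [if_true, ContinuousLinearMap.comp_apply, ContinuousLinearMap.proj_apply, mk'_single]
      exact e.symm
    · intro j _ hj
      simp only [hj, if_false]
      rfl
    · intro h
      exact absurd (Finset.mem_univ l) h
  rw [integral_const_mul] at h2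
  have hpi : (2 * Real.pi : ℝ) ≠ 0 := by positivity
  exact (mul_eq_zero.1 h2).resolve_left hpi

/-- the diagonal entries vanish at the end of the flow -/
theorem diag_zero (n : ι → ℕ) (k : ι → Fin 2 → ℤ) (c d : ι → V) (hc : Fit n k c)
    (hd : Fit n k d) (x : V) (r : Fin 2) : GF n k (grk k c) (grk k d) 0 x r r = 0 := by
  simp only [GF, Finset.sum_apply, Pi.smul_apply, smul_eq_mul]
  refine Finset.sum_eq_zero fun i _ => ?_
  rcases Nat.eq_zero_or_pos (n i) with h | h
  · have e1 : c i r * (k i r : ℝ) = 0 := by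
      by_cases h' : c i r = 0
      · simp [h']
      · have := hc i r h'
        rw [h] at this
        push_cast at this
        have h3 : (k i r : ℝ) = 0 := by
          have : (k i r : ℝ) ^ 2 = 0 := this.symm
          exact pow_eq_zero_iff (two_ne_zero) |>.1 this
        rw [h3, mul_zero]
    have e2 : d i r * (k i r : ℝ) = 0 := by
      by_cases h' : d i r = 0
      · simp [h']
      · have := hd i r h'
        rw [h] at this
        push_cast at this
        have h3 : (k i r : ℝ) = 0 := by
          have : (k i r : ℝ) ^ 2 = 0 := this.symm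
          exact pow_eq_zero_iff (two_ne_zero) |>.1 this
        rw [h3, mul_zero]
    simp only [tm, grk, Pi.add_apply, Pi.smul_apply, smul_eq_mul, e1, e2, mul_zero, add_zero]
  · rw [zero_pow h.ne', zero_mul]

end flow

end Pool.Agent.Q246.MM
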