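import Pool.Agent.Q246.MM.Main

/-!
# Lipschitz functions
-/

set_option autoImplicit false

open MeasureTheory Set Filter Topology

namespace Pool.Agent.Q246.MM

open Pool.Agent.W779.Morrey

/-- separately convex and `L`-Lipschitz in each variable -/
structure LC (ψ : ℝ → ℝ → ℝ) (L : ℝ) : Prop where
  cx : ∀ y, ConvexOn ℝ univ (fun x => ψ x y)
  cy : ∀ x, ConvexOn ℝ univ (ψ x)
  lx : ∀ x x' y, |ψ x y - ψ x' y| ≤ L * |x - x'|
  ly : ∀ x y y', |ψ x y - ψ x y'| ≤ L * |y - y'|

theorem LC.nonneg {ψ : ℝ → ℝ → ℝ} {L : ℝ} (h : LC ψ L) : 0 ≤ L := by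
  have := h.lx 1 0 0
  simp only [sub_zero, abs_one, mul_one] at this
  exact (abs_nonneg _).trans this

theorem cont1 {f : ℝ → ℝ} (h : ConvexOn ℝ univ f) : Continuous f :=
  continuousOn_univ.1 (h.continuousOn isOpen_univ)

/-- the average in the second variable -/
noncomputable def av (ψ : ℝ → ℝ → ℝ) (ε : ℝ) (x y : ℝ) : ℝ :=
  1 / (2 * ε) * ∫ t in (-ε)..ε, ψ x (y + t)

section av

variable {ψ : ℝ → ℝ → ℝ} {L : ℝ}

theorem ii (h : LC ψ L) (x y a b : ℝ) :
    IntervalIntegrable (fun t => ψ x (y + t)) volume a b :=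
  ((cont1 (h.cy x)).comp (continuous_const.add continuous_id)).intervalIntegrable _ _

theorem av_le (h : LC ψ L) {ε : ℝ} (hε : 0 < ε) (x y : ℝ) :
    av ψ ε x y ≤ ψ x y + L * ε / 2 := by
  have h1 : ∫ t in (-ε)..ε, ψ x (y + t) ≤ ∫ t in (-ε)..ε, (ψ x y + L * |t|) := by
    refine intervalIntegral.integral_mono_on (by linarith) (ii h x y _ _) ?_ fun t _ => ?_
    · exact (continuous_const.add (continuous_const.mul continuous_abs)).intervalIntegrable _ _
    · have := (abs_le.1 (h.ly x (y + t) y)).2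
      rw [add_sub_cancel_left] at this
      linarith
  have h2 : ∫ t in (-ε)..ε, (ψ x y + L * |t|) = 2 * ε * ψ x y + L * ε ^ 2 := by
    have j1 : IntervalIntegrable (fun _ : ℝ => ψ x y) volume (-ε) ε :=
      continuous_const.intervalIntegrable _ _
    have j2 : IntervalIntegrable (fun t : ℝ => L * |t|) volume (-ε) ε :=
      (continuous_const.mul continuous_abs).intervalIntegrable _ _
    rw [intervalIntegral.integral_add j1 j2,
      intervalIntegral.integral_const, intervalIntegral.integral_const_mul]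
    have h3 : ∫ t in (-ε)..ε, |t| = ε ^ 2 := by
      have h4 := intervalIntegral.integral_add_adjacent_intervals
        (μ := volume) (f := fun t : ℝ => |t|) (a := -ε) (b := 0) (c := ε)
        (continuous_abs.intervalIntegrable _ _) (continuous_abs.intervalIntegrable _ _)
      rw [← h4]
      have h5 : ∫ t in (-ε)..0, |t| = ∫ t in (-ε)..0, -t := by
        refine intervalIntegral.integral_congr fun t ht => ?_
        rw [uIcc_of_le (by linarith)] at ht
        exact abs_of_nonpos ht.2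
      have h6 : ∫ t in (0:ℝ)..ε, |t| = ∫ t in (0:ℝ)..ε, t := by
        refine intervalIntegral.integral_congr fun t ht => ?_
        rw [uIcc_of_le (by linarith)] at ht
        exact abs_of_nonneg ht.1
      rw [h5, h6, intervalIntegral.integral_neg, integral_id, integral_id]
      ring
    rw [h3]
    simp only [smul_eq_mul]
    ring
  unfold av
  rw [h2] at h1
  calc 1 / (2 * ε) * ∫ t in (-ε)..ε, ψ x (y + t)
      ≤ 1 / (2 * ε) * (2 * ε * ψ x y + L * ε ^ 2) :=
        mul_le_mul_of_nonneg_left h1 (by positivity)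
    _ = _ := by field_simp

theorem le_av (h : LC ψ L) {ε : ℝ} (hε : 0 < ε) (x y : ℝ) : ψ x y ≤ av ψ ε x y := by
  have hsub : ∫ t in (-ε)..ε, ψ x (y + t) = ∫ t in (-ε)..ε, ψ x (y - t) := by
    have := intervalIntegral.integral_comp_neg (a := -ε) (b := ε) (fun t => ψ x (y + t))
    simp only [neg_neg] at this
    rw [← this]
    rfl
  have h1 : 2 * ∫ t in (-ε)..ε, ψ x (y + t)
      = ∫ t in (-ε)..ε, (ψ x (y + t) + ψ x (y - t)) := by
    have j2 : IntervalIntegrable (fun t : ℝ => ψ x (y - t)) volume (-ε) ε :=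
      ((cont1 (h.cy x)).comp (continuous_const.sub continuous_id)).intervalIntegrable _ _
    rw [intervalIntegral.integral_add (ii h x y _ _) j2, ← hsub]
    ring
  have h2 : ∫ t in (-ε)..ε, (2 * ψ x y) ≤ ∫ t in (-ε)..ε, (ψ x (y + t) + ψ x (y - t)) := by
    refine intervalIntegral.integral_mono_on (by linarith) (by simp) ?_ fun t _ => ?_
    · exact (((cont1 (h.cy x)).comp (continuous_const.add continuous_id)).add
        ((cont1 (h.cy x)).comp (continuous_const.sub continuous_id))).intervalIntegrable _ _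
    · have := (h.cy x).2 (mem_univ (y + t)) (mem_univ (y - t))
        (by norm_num : (0 : ℝ) ≤ 1 / 2) (by norm_num : (0 : ℝ) ≤ 1 / 2) (by norm_num)
      simp only [smul_eq_mul] at this
      have e : 1 / 2 * (y + t) + 1 / 2 * (y - t) = y := by ring
      rw [e] at this
      linarith
  rw [← h1, intervalIntegral.integral_const, smul_eq_mul] at h2
  unfold av
  have h3 : 2 * ε * ψ x y ≤ ∫ t in (-ε)..ε, ψ x (y + t) := by linarith
  calc ψ x y = 1 / (2 * ε) * (2 * ε * ψ x y) := by field_simp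
    _ ≤ _ := mul_le_mul_of_nonneg_left h3 (by positivity)

theorem av_cl (h : LC ψ L) {ε : ℝ} (hε : 0 < ε) : Cl (av ψ ε) (L / ε) := by
  have hL := h.nonneg
  have hc : 0 ≤ 1 / (2 * ε) := by positivity
  refine ⟨fun y => ⟨convex_univ, fun x _ x' _ a b ha hb hab => ?_⟩,
    fun x => ⟨convex_univ, fun y _ y' _ a b ha hb hab => ?_⟩, fun x x' y y' => ?_⟩
  · simp only [smul_eq_mul, av]
    have h1 : ∫ t in (-ε)..ε, ψ (a * x + b * x') (y + t)
        ≤ ∫ t in (-ε)..ε, (a * ψ x (y + t) + b * ψ x' (y + t)) := by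
      refine intervalIntegral.integral_mono_on (by linarith) (ii h _ y _ _)
        (((ii h x y _ _).const_mul a).add ((ii h x' y _ _).const_mul b)) fun t _ => ?_
      exact (h.cx (y + t)).2 (mem_univ x) (mem_univ x') ha hb hab
    rw [intervalIntegral.integral_add ((ii h x y _ _).const_mul a) ((ii h x' y _ _).const_mul b),
      intervalIntegral.integral_const_mul, intervalIntegral.integral_const_mul] at h1
    have := mul_le_mul_of_nonneg_left h1 hc
    linarith
  · simp only [smul_eq_mul, av]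
    have h1 : ∫ t in (-ε)..ε, ψ x (a * y + b * y' + t)
        ≤ ∫ t in (-ε)..ε, (a * ψ x (y + t) + b * ψ x (y' + t)) := by
      refine intervalIntegral.integral_mono_on (by linarith) (ii h _ _ _ _)
        (((ii h x y _ _).const_mul a).add ((ii h x y' _ _).const_mul b)) fun t _ => ?_
      have := (h.cy x).2 (mem_univ (y + t)) (mem_univ (y' + t)) ha hb hab
      simp only [smul_eq_mul] at this
      have e : a * (y + t) + b * (y' + t) = a * y + b * y' + t := by
        calc a * (y + t) + b * (y' + t) = a * y + b * y' + (a + b) * t := by ring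
          _ = _ := by rw [hab, one_mul]
      rwa [e] at this
    rw [intervalIntegral.integral_add ((ii h x y _ _).const_mul a) ((ii h x y' _ _).const_mul b),
      intervalIntegral.integral_const_mul, intervalIntegral.integral_const_mul] at h1
    have := mul_le_mul_of_nonneg_left h1 hc
    linarith
  · -- mixed differences
    set G : ℝ → ℝ := fun y => ψ x' y - ψ x y with hG
    have hGc : Continuous G := (cont1 (h.cy x')).sub (cont1 (h.cy x))
    have hGi : ∀ a b : ℝ, IntervalIntegrable G volume a b := fun a b => hGc.intervalIntegrable _ _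
    have hGb : ∀ z, |G z| ≤ L * |x' - x| := fun z => h.lx x' x z
    have hI : ∀ z : ℝ, ∫ t in (-ε)..ε, G (z + t) = ∫ t in (z - ε)..(z + ε), G t := by
      intro z
      rw [intervalIntegral.integral_comp_add_left (fun t => G t)]
      rfl
    have e1 : av ψ ε x' y' - av ψ ε x' y - av ψ ε x y' + av ψ ε x y
        = 1 / (2 * ε) * ((∫ t in (-ε)..ε, G (y' + t)) - ∫ t in (-ε)..ε, G (y + t)) := by
      simp only [av, hG]
      rw [intervalIntegral.integral_sub (ii h x' y' _ _) (ii h x y' _ _),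
        intervalIntegral.integral_sub (ii h x' y _ _) (ii h x y _ _)]
      ring
    have e2 : (∫ t in (-ε)..ε, G (y' + t)) - (∫ t in (-ε)..ε, G (y + t))
        = (∫ t in (y + ε)..(y' + ε), G t) - ∫ t in (y - ε)..(y' - ε), G t := by
      rw [hI, hI]
      have a1 := intervalIntegral.integral_add_adjacent_intervals (hGi (y - ε) (y + ε))
        (hGi (y + ε) (y' + ε))
      have a2 := intervalIntegral.integral_add_adjacent_intervals (hGi (y - ε) (y' - ε))
        (hGi (y' - ε) (y' + ε))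
      linarith
    have b1 := intervalIntegral.norm_integral_le_of_norm_le_const (a := y + ε) (b := y' + ε)
      (f := G) (C := L * |x' - x|) fun t _ => by rw [Real.norm_eq_abs]; exact hGb t
    have b2 := intervalIntegral.norm_integral_le_of_norm_le_const (a := y - ε) (b := y' - ε)
      (f := G) (C := L * |x' - x|) fun t _ => by rw [Real.norm_eq_abs]; exact hGb t
    rw [Real.norm_eq_abs] at b1 b2
    rw [add_sub_add_right_eq_sub] at b1
    rw [sub_sub_sub_cancel_right] at b2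
    rw [e1, e2, abs_mul, abs_of_nonneg hc]
    have b3 := abs_sub (∫ t in (y + ε)..(y' + ε), G t) (∫ t in (y - ε)..(y' - ε), G t)
    calc 1 / (2 * ε) * |(∫ t in (y + ε)..(y' + ε), G t) - ∫ t in (y - ε)..(y' - ε), G t|
        ≤ 1 / (2 * ε) * (2 * (L * |x' - x| * |y' - y|)) :=
          mul_le_mul_of_nonneg_left (by linarith) hc
      _ = L / ε * |x' - x| * |y' - y| := by field_simp

end av

/-- integrability of a continuous function of the diagonal -/
theorem int_diag {ψ : ℝ → ℝ → ℝ} (hc : Continuous (fun y : V => ψ (y 0) (y 1)))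
    (F₀ : Matrix (Fin 2) (Fin 2) ℝ) {Ω : Set V} (hb : Bornology.IsBounded Ω)
    {ϑ : V → V} {C : NNReal} (hC : LipschitzWith C ϑ) :
    IntegrableOn (fun x => ψ (F₀ 0 0 + gd ϑ x 0 0) (F₀ 1 1 + gd ϑ x 1 1)) Ω := by
  have h2 : Continuous (fun F : Matrix (Fin 2) (Fin 2) ℝ => ψ (F 0 0) (F 1 1)) := by
    have h3 : Continuous (fun F : Matrix (Fin 2) (Fin 2) ℝ => (![F 0 0, F 1 1] : V)) := by
      refine continuous_pi fun i => ?_
      fin_cases i
      · exact continuous_id.matrix_elem 0 0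
      · exact continuous_id.matrix_elem 1 1
    exact hc.comp h3
  exact Q144.MD.int_grad h2 F₀ hb hC

theorem LC.continuous {ψ : ℝ → ℝ → ℝ} {L : ℝ} (h : LC ψ L) :
    Continuous (fun y : V => ψ (y 0) (y 1)) := by
  have hL := h.nonneg
  rw [continuous_iff_continuousAt]
  intro y₀
  rw [ContinuousAt, tendsto_iff_norm_sub_tendsto_zero]
  have hc : Continuous (fun y : V => L * |y 0 - y₀ 0| + L * |y 1 - y₀ 1|) :=
    (continuous_const.mul ((continuous_apply 0).sub continuous_const).abs).add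
      (continuous_const.mul ((continuous_apply 1).sub continuous_const).abs)
  have h0 : Tendsto (fun y : V => L * |y 0 - y₀ 0| + L * |y 1 - y₀ 1|) (𝓝 y₀) (𝓝 0) := by
    have := hc.tendsto y₀
    simpa using this
  refine squeeze_zero (fun _ => norm_nonneg _) (fun y => ?_) h0
  have e : ψ (y 0) (y 1) - ψ (y₀ 0) (y₀ 1)
      = (ψ (y 0) (y 1) - ψ (y₀ 0) (y 1)) + (ψ (y₀ 0) (y 1) - ψ (y₀ 0) (y₀ 1)) := by ring
  rw [e]
  refine (norm_add_le _ _).trans ?_
  rw [Real.norm_eq_abs, Real.norm_eq_abs]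
  exact add_le_add (h.lx _ _ _) (h.ly _ _ _)

/-- **Lipschitz functions.** -/
theorem lip {ψ : ℝ → ℝ → ℝ} {L : ℝ} (h : LC ψ L)
    (F₀ : Matrix (Fin 2) (Fin 2) ℝ) {Ω : Set V} (hΩ : IsOpen Ω) (hb : Bornology.IsBounded Ω)
    {ϑ : V → V} {C : NNReal} (hC : LipschitzWith C ϑ) (h0 : ∀ x, x ∉ Ω → ϑ x = 0) :
    ψ (F₀ 0 0) (F₀ 1 1) * (volume Ω).toReal ≤
      (∫ x in Ω, ψ (F₀ 0 0 + gd ϑ x 0 0) (F₀ 1 1 + gd ϑ x 1 1))
        + L * Real.sqrt (2 * (volume Ω).toReal *
          (Dr ϑ Ω 0 0 * Dr ϑ Ω 1 1 * Dr ϑ Ω 0 1 * Dr ϑ Ω 1 0) ^ (1 / 4 : ℝ)) := by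
  have hL := h.nonneg
  set v := (volume Ω).toReal with hv
  have hv0 : 0 ≤ v := ENNReal.toReal_nonneg
  set P := (Dr ϑ Ω 0 0 * Dr ϑ Ω 1 1 * Dr ϑ Ω 0 1 * Dr ϑ Ω 1 0) ^ (1 / 4 : ℝ) with hP
  have hP0 : 0 ≤ P := by
    refine Real.rpow_nonneg ?_ _
    have := Dr_nonneg ϑ Ω 0 0
    have := Dr_nonneg ϑ Ω 1 1
    have := Dr_nonneg ϑ Ω 0 1
    have := Dr_nonneg ϑ Ω 1 0
    positivity
  set I := ∫ x in Ω, ψ (F₀ 0 0 + gd ϑ x 0 0) (F₀ 1 1 + gd ϑ x 1 1) with hI
  have hfin : volume Ω ≠ ⊤ := hb.measure_lt_top.ne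
  have key : ∀ ε : ℝ, 0 < ε → ψ (F₀ 0 0) (F₀ 1 1) * v ≤ I + (L * ε / 2 * v + L / ε * P) := by
    intro ε hε
    have hcl := av_cl h hε
    have hm := mult hcl F₀ hΩ hb hC h0
    rw [← hv, ← hP] at hm
    have i1 := int_diag hcl.continuous F₀ hb hC
    have i2 := int_diag h.continuous F₀ hb hC
    have h1 : ∫ x in Ω, av ψ ε (F₀ 0 0 + gd ϑ x 0 0) (F₀ 1 1 + gd ϑ x 1 1)
        ≤ I + L * ε / 2 * v := by
      have h2 : ∫ x in Ω, (ψ (F₀ 0 0 + gd ϑ x 0 0) (F₀ 1 1 + gd ϑ x 1 1) + L * ε / 2)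
          = I + L * ε / 2 * v := by
        rw [integral_add i2 (integrableOn_const hfin), setIntegral_const, smul_eq_mul, ← hI, hv]
        simp only [Measure.real]
        ring
      rw [← h2]
      refine integral_mono i1 (i2.add (integrableOn_const hfin)) fun x => ?_
      exact av_le h hε _ _
    have h3 : ψ (F₀ 0 0) (F₀ 1 1) * v ≤ av ψ ε (F₀ 0 0) (F₀ 1 1) * v :=
      mul_le_mul_of_nonneg_right (le_av h hε _ _) hv0
    linarith
  rcases hv0.eq_or_lt with hv1 | hv1
  · -- measure zero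
    have hz : volume Ω = 0 := by
      rcases (ENNReal.toReal_eq_zero_iff _).1 (hv ▸ hv1.symm) with h | h
      · exact h
      · exact absurd h hfin
    have hI0 : I = 0 := by
      rw [hI, Measure.restrict_eq_zero.2 hz]
      simp
    rw [← hv1, hI0]
    simp
  · -- choose `ε`
    have hδ : ∀ δ : ℝ, 0 < δ → ψ (F₀ 0 0) (F₀ 1 1) * v ≤ I + L * Real.sqrt (2 * v * (P + δ)) := by
      intro δ hδ
      have hPd : 0 < P + δ := by positivity
      set s := Real.sqrt (2 * v * (P + δ)) with hs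
      have hs0 : 0 < s := Real.sqrt_pos.2 (by positivity)
      have hs2 : s ^ 2 = 2 * v * (P + δ) := Real.sq_sqrt (by positivity)
      have hk := key (s / v) (by positivity)
      refine hk.trans ?_
      have e1 : L * (s / v) / 2 * v = L * s / 2 := by field_simp
      have e2 : L / (s / v) * P ≤ L * s / 2 := by
        have e3 : L / (s / v) * P = L * (v * P) / s := by field_simp
        rw [e3, div_le_iff₀ hs0]
        have : v * P ≤ s ^ 2 / 2 := by
          rw [hs2]
          nlinarith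
        calc L * (v * P) ≤ L * (s ^ 2 / 2) := mul_le_mul_of_nonneg_left this hL
          _ = L * s / 2 * s := by ring
      linarith
    have hcont : Continuous (fun δ : ℝ => I + L * Real.sqrt (2 * v * (P + δ))) := by
      fun_prop
    have hlim := (hcont.tendsto 0).mono_left (nhdsWithin_le_nhds (s := Ioi 0))
    have := ge_of_tendsto hlim (by
      filter_upwards [self_mem_nhdsWithin] with δ hd
      exact hδ δ hd)
    simpa using this

/-! ### the local version -/

/-- projection on the interval -/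
noncomputable def th (M x : ℝ) : ℝ := max (-M) (min M x)

theorem th_mem {M : ℝ} (hM : 0 ≤ M) (x : ℝ) : |th M x| ≤ M := by
  rw [abs_le, th]
  exact ⟨le_max_left _ _, max_le (by linarith) (min_le_left _ _)⟩

theorem th_eq {M x : ℝ} (hx : |x| ≤ M) : th M x = x := by
  rw [abs_le] at hx
  rw [th, min_eq_right hx.2, max_eq_right hx.1]

/-- the key inequality of the extension -/
theorem ext_key {f : ℝ → ℝ} {L M : ℝ} (hM : 0 ≤ M)
    (hf : ∀ x x', |x| ≤ M → |x'| ≤ M → |f x - f x'| ≤ L * |x - x'|) (x z : ℝ) (hz : |z| ≤ M) :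
    f (th M x) + L * |x - th M x| ≤ f z + L * |x - z| := by
  have h1 := (abs_le.1 (hf (th M x) z (th_mem hM x) hz)).2
  have h2 : |th M x - z| + |x - th M x| = |x - z| := by
    rw [abs_le] at hz
    unfold th
    rcases le_total M x with h | h
    · rw [min_eq_left h, max_eq_right (by linarith), abs_of_nonneg (by linarith),
        abs_of_nonneg (by linarith), abs_of_nonneg (by linarith)]
      ring
    · rw [min_eq_right h]
      rcases le_total (-M) x with h' | h'
      · rw [max_eq_right h']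
        simp
      · rw [max_eq_left h', abs_of_nonpos (by linarith), abs_of_nonpos (by linarith),
          abs_of_nonpos (by linarith)]
        ring
  rw [← h2]
  nlinarith

theorem ext_convex {f : ℝ → ℝ} {L M : ℝ} (hM : 0 ≤ M) (hL : 0 ≤ L) (hc : ConvexOn ℝ univ f)
    (hf : ∀ x x', |x| ≤ M → |x'| ≤ M → |f x - f x'| ≤ L * |x - x'|) (c : ℝ) :
    ConvexOn ℝ univ (fun x => f (th M x) + L * |x - th M x| + c) := by
  refine ⟨convex_univ, fun x _ y _ a b ha hb hab => ?_⟩
  simp only [smul_eq_mul]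
  have hx := th_mem hM x
  have hy := th_mem hM y
  have hz : |a * th M x + b * th M y| ≤ M := by
    calc |a * th M x + b * th M y| ≤ |a * th M x| + |b * th M y| := abs_add_le _ _
      _ = a * |th M x| + b * |th M y| := by rw [abs_mul, abs_mul, abs_of_nonneg ha, abs_of_nonneg hb]
      _ ≤ a * M + b * M := add_le_add (mul_le_mul_of_nonneg_left hx ha)
          (mul_le_mul_of_nonneg_left hy hb)
      _ = M := by rw [← add_mul, hab, one_mul]
  have h1 := ext_key hM hf (a * x + b * y) _ hz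
  have h2 := hc.2 (mem_univ (th M x)) (mem_univ (th M y)) ha hb hab
  simp only [smul_eq_mul] at h2
  have h3 : |a * x + b * y - (a * th M x + b * th M y)|
      ≤ a * |x - th M x| + b * |y - th M y| := by
    have e : a * x + b * y - (a * th M x + b * th M y)
        = a * (x - th M x) + b * (y - th M y) := by ring
    rw [e]
    refine (abs_add_le _ _).trans (le_of_eq ?_)
    rw [abs_mul, abs_mul, abs_of_nonneg ha, abs_of_nonneg hb]
  have h4 := mul_le_mul_of_nonneg_left h3 hL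
  have h5 : a * c + b * c = c := by rw [← add_mul, hab, one_mul]
  linarith

theorem ext_lip {f : ℝ → ℝ} {L M : ℝ} (hM : 0 ≤ M) (hL : 0 ≤ L)
    (hf : ∀ x x', |x| ≤ M → |x'| ≤ M → |f x - f x'| ≤ L * |x - x'|) (x x' : ℝ) :
    |(f (th M x) + L * |x - th M x|) - (f (th M x') + L * |x' - th M x'|)| ≤ L * |x - x'| := by
  have key : ∀ x x' : ℝ, (f (th M x) + L * |x - th M x|) - (f (th M x') + L * |x' - th M x'|)
      ≤ L * |x - x'| := by
    intro x x'
    have h1 := ext_key hM hf x (th M x') (th_mem hM x')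
    have h2 : |x - th M x'| ≤ |x - x'| + |x' - th M x'| := by
      have e : x - th M x' = (x - x') + (x' - th M x') := by ring
      rw [e]
      exact abs_add_le _ _
    have h3 := mul_le_mul_of_nonneg_left h2 hL
    linarith
  rw [abs_le]
  constructor
  · have := key x' x
    rw [abs_sub_comm x' x] at this
    linarith
  · exact key x x'

/-- the extension -/
noncomputable def ex (ψ : ℝ → ℝ → ℝ) (L M x y : ℝ) : ℝ :=
  ψ (th M x) (th M y) + L * |x - th M x| + L * |y - th M y|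

theorem ex_lc {ψ : ℝ → ℝ → ℝ} {L M : ℝ} (hM : 0 ≤ M) (hL : 0 ≤ L)
    (cx : ∀ y, ConvexOn ℝ univ (fun x => ψ x y)) (cy : ∀ x, ConvexOn ℝ univ (ψ x))
    (lx : ∀ x x' y, |x| ≤ M → |x'| ≤ M → |y| ≤ M → |ψ x y - ψ x' y| ≤ L * |x - x'|)
    (ly : ∀ x y y', |x| ≤ M → |y| ≤ M → |y'| ≤ M → |ψ x y - ψ x y'| ≤ L * |y - y'|) :
    LC (ex ψ L M) L := by
  refine ⟨fun y => ?_, fun x => ?_, fun x x' y => ?_, fun x y y' => ?_⟩
  · exact ext_convex hM hL (cx (th M y)) (fun x x' hx hx' => lx x x' _ hx hx' (th_mem hM y)) _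
  · have h1 := ext_convex hM hL (cy (th M x))
      (fun y y' hy hy' => ly (th M x) y y' (th_mem hM x) hy hy') (L * |x - th M x|)
    refine h1.congr fun y _ => ?_
    simp only [ex]
    ring
  · have h1 := ext_lip hM hL (f := fun x => ψ x (th M y))
      (fun x x' hx hx' => lx x x' _ hx hx' (th_mem hM y)) x x'
    have e : ex ψ L M x y - ex ψ L M x' y = (ψ (th M x) (th M y) + L * |x - th M x|)
        - (ψ (th M x') (th M y) + L * |x' - th M x'|) := by
      simp only [ex]
      ring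
    rw [e]
    exact h1
  · have h1 := ext_lip hM hL (f := fun y => ψ (th M x) y)
      (fun y y' hy hy' => ly (th M x) y y' (th_mem hM x) hy hy') y y'
    have e : ex ψ L M x y - ex ψ L M x y' = (ψ (th M x) (th M y) + L * |y - th M y|)
        - (ψ (th M x) (th M y') + L * |y' - th M y'|) := by
      simp only [ex]
      ring
    rw [e]
    exact h1

/-- **Functions which are Lipschitz on a square.** -/
theorem lip_local {ψ : ℝ → ℝ → ℝ} {L M : ℝ} (hM : 0 ≤ M) (hL : 0 ≤ L)
    (cx : ∀ y, ConvexOn ℝ univ (fun x => ψ x y)) (cy : ∀ x, ConvexOn ℝ univ (ψ x))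
    (lx : ∀ x x' y, |x| ≤ M → |x'| ≤ M → |y| ≤ M → |ψ x y - ψ x' y| ≤ L * |x - x'|)
    (ly : ∀ x y y', |x| ≤ M → |y| ≤ M → |y'| ≤ M → |ψ x y - ψ x y'| ≤ L * |y - y'|)
    (F₀ : Matrix (Fin 2) (Fin 2) ℝ) {Ω : Set V} (hΩ : IsOpen Ω) (hb : Bornology.IsBounded Ω)
    {ϑ : V → V} {C : NNReal} (hC : LipschitzWith C ϑ) (h0 : ∀ x, x ∉ Ω → ϑ x = 0)
    (hF : ∀ i, |F₀ i i| ≤ M) (hA : ∀ᵐ x ∂(volume.restrict Ω), ∀ i, |F₀ i i + gd ϑ x i i| ≤ M) :
    ψ (F₀ 0 0) (F₀ 1 1) * (volume Ω).toReal ≤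
      (∫ x in Ω, ψ (F₀ 0 0 + gd ϑ x 0 0) (F₀ 1 1 + gd ϑ x 1 1))
        + L * Real.sqrt (2 * (volume Ω).toReal *
          (Dr ϑ Ω 0 0 * Dr ϑ Ω 1 1 * Dr ϑ Ω 0 1 * Dr ϑ Ω 1 0) ^ (1 / 4 : ℝ)) := by
  have h1 := lip (ex_lc hM hL cx cy lx ly) F₀ hΩ hb hC h0
  have e1 : ∀ x y : ℝ, |x| ≤ M → |y| ≤ M → ex ψ L M x y = ψ x y := by
    intro x y hx hy
    simp [ex, th_eq hx, th_eq hy]
  rw [e1 _ _ (hF 0) (hF 1)] at h1
  have e2 : ∫ x in Ω, ex ψ L M (F₀ 0 0 + gd ϑ x 0 0) (F₀ 1 1 + gd ϑ x 1 1)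
      = ∫ x in Ω, ψ (F₀ 0 0 + gd ϑ x 0 0) (F₀ 1 1 + gd ϑ x 1 1) := by
    refine integral_congr_ae ?_
    filter_upwards [hA] with x hx
    exact e1 _ _ (hx 0) (hx 1)
  rw [e2] at h1
  exact h1

end Pool.Agent.Q246.MM
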