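import Pool.Agent.Q246.MM.Cls

/-!
# The multiplicative inequality
-/

set_option autoImplicit false

open MeasureTheory Set Filter Topology

namespace Pool.Agent.Q246.MM

open Pool.Agent.W779.Morrey
open Pool.Agent.Q82.MD (Quasiconvex RankOneConvex S_MOLL S_LIMQ S_LC)

/-- separately convex, mixed differences bounded by `K` -/
def Cl (ψ : ℝ → ℝ → ℝ) (K : ℝ) : Prop :=
  (∀ y, ConvexOn ℝ univ (fun x => ψ x y)) ∧ (∀ x, ConvexOn ℝ univ (ψ x)) ∧
    ∀ x x' y y', |ψ x' y' - ψ x' y - ψ x y' + ψ x y| ≤ K * |x' - x| * |y' - y|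

/-- the functional -/
def W4 (ψ : ℝ → ℝ → ℝ) (p q β₁ β₂ : ℝ) (F : Matrix (Fin 2) (Fin 2) ℝ) : ℝ :=
  ψ (F 0 0) (F 1 1) + (p * F 0 0 ^ 2 + q * F 1 1 ^ 2) + (β₁ * F 0 1 ^ 2 + β₂ * F 1 0 ^ 2)

/-- translation and dilation of the variable of a convex function -/
theorem convex_affine {f : ℝ → ℝ} (h : ConvexOn ℝ univ f) (r a b c : ℝ) :
    ConvexOn ℝ univ (fun t => f (a + r * t) + (b + c * t)) := by
  refine ⟨convex_univ, fun x _ y _ u v hu hv huv => ?_⟩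
  have h1 := h.2 (mem_univ (a + r * x)) (mem_univ (a + r * y)) hu hv huv
  simp only [smul_eq_mul] at h1 ⊢
  have e : u * (a + r * x) + v * (a + r * y) = a + r * (u * x + v * y) := by
    have : a = (u + v) * a := by rw [huv, one_mul]
    calc u * (a + r * x) + v * (a + r * y) = (u + v) * a + r * (u * x + v * y) := by ring
      _ = _ := by rw [huv, one_mul]
  have e2 : b + c * (u * x + v * y) = u * (b + c * x) + v * (b + c * y) := by
    calc b + c * (u * x + v * y) = (u + v) * b + c * (u * x + v * y) := by rw [huv, one_mul]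
      _ = _ := by ring
  rw [e] at h1
  rw [e2]
  linarith

theorem Cl.nonneg {ψ : ℝ → ℝ → ℝ} {K : ℝ} (h : Cl ψ K) : 0 ≤ K := by
  have := h.2.2 0 1 0 1
  simp only [sub_zero, abs_one, mul_one] at this
  exact (abs_nonneg _).trans this

/-- from the class on the plane to the vector form, with a dilation of the first variable -/
theorem Cl.sc {ψ : ℝ → ℝ → ℝ} {K : ℝ} (h : Cl ψ K) (r p q : ℝ) :
    SC (fun y : V => ψ (r * y 0) (y 1) + (p * y 0 ^ 2 + q * y 1 ^ 2)) (|r| * K) p q := by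
  refine ⟨fun y => ?_, fun y => ?_, fun y s t => ?_⟩
  · have h1 := convex_affine (h.1 (y 1)) r (r * y 0) (p * y 0 ^ 2 + q * y 1 ^ 2) (2 * p * y 0)
    refine h1.congr fun t _ => ?_
    simp [e0]
    ring_nf
  · have h1 := convex_affine (h.2.1 (r * y 0)) 1 (y 1) (p * y 0 ^ 2 + q * y 1 ^ 2) (2 * q * y 1)
    refine h1.congr fun t _ => ?_
    simp [e1]
    ring_nf
  · have h1 := h.2.2 (r * y 0) (r * (y 0 + s)) (y 1) (y 1 + t)
    have e : r * (y 0 + s) - r * y 0 = r * s := by ring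
    rw [e, add_sub_cancel_left, abs_mul] at h1
    simp only [e0, e1, Pi.add_apply, Pi.smul_apply, Pi.single_eq_same, smul_eq_mul, mul_one,
      Fin.isValue, ne_eq, one_ne_zero, not_false_eq_true, Pi.single_eq_of_ne, mul_zero, add_zero,
      zero_ne_one]
    have e3 : ψ (r * (y 0 + s)) (y 1 + t) + (p * (y 0 + s) ^ 2 + q * (y 1 + t) ^ 2)
        - (ψ (r * (y 0 + s)) (y 1) + (p * (y 0 + s) ^ 2 + q * y 1 ^ 2))
        - (ψ (r * y 0) (y 1 + t) + (p * y 0 ^ 2 + q * (y 1 + t) ^ 2))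
        + (ψ (r * y 0) (y 1) + (p * y 0 ^ 2 + q * y 1 ^ 2))
        = ψ (r * (y 0 + s)) (y 1 + t) - ψ (r * (y 0 + s)) (y 1) - ψ (r * y 0) (y 1 + t)
          + ψ (r * y 0) (y 1) := by ring
    rw [e3]
    calc _ ≤ K * (|r| * |s|) * |t| := h1
      _ = _ := by ring

theorem Cl.continuous {ψ : ℝ → ℝ → ℝ} {K : ℝ} (h : Cl ψ K) :
    Continuous (fun y : V => ψ (y 0) (y 1)) := by
  have h1 := (h.sc 1 0 0).continuous
  simpa using h1

theorem continuous_W4 {ψ : ℝ → ℝ → ℝ} (h : Continuous (fun y : V => ψ (y 0) (y 1)))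
    (p q β₁ β₂ : ℝ) : Continuous (W4 ψ p q β₁ β₂) := by
  have hc : ∀ i j : Fin 2, Continuous (fun F : Matrix (Fin 2) (Fin 2) ℝ => F i j) := fun i j =>
    continuous_id.matrix_elem i j
  have h1 : Continuous (fun F : Matrix (Fin 2) (Fin 2) ℝ => ψ (F 0 0) (F 1 1)) := by
    have h2 : Continuous (fun F : Matrix (Fin 2) (Fin 2) ℝ => (![F 0 0, F 1 1] : V)) := by
      refine continuous_pi fun i => ?_
      fin_cases i
      · exact hc 0 0
      · exact hc 1 1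
    exact h.comp h2
  unfold W4
  exact (h1.add ((continuous_const.mul ((hc 0 0).pow 2)).add
    (continuous_const.mul ((hc 1 1).pow 2)))).add
    ((continuous_const.mul ((hc 0 1).pow 2)).add (continuous_const.mul ((hc 1 0).pow 2)))

/-- the general theorem for positive coefficients -/
theorem qc_gen {ψ : ℝ → ℝ → ℝ} {K : ℝ} (h : Cl ψ K) {p q β₁ β₂ : ℝ} (hp : 0 ≤ p) (hq : 0 ≤ q)
    (h1 : 0 ≤ β₁) (h2 : 0 ≤ β₂) (hK : K ^ 4 ≤ 256 * (p * q * β₁ * β₂)) :
    Quasiconvex (W4 ψ p q β₁ β₂) := by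
  rcases h.nonneg.eq_or_lt with hK0 | hK0
  · have hs := h.sc 1 p q
    have e : W4 ψ p q β₁ β₂ = WM (fun y : V => ψ (1 * y 0) (y 1) + (p * y 0 ^ 2 + q * y 1 ^ 2))
        β₁ β₂ := by
      funext F
      simp [W4, WM]
      ring
    rw [e]
    refine qc_unscaled hp hq h1 h2 ?_ ?_ hs
    · rw [← hK0]
      have := mul_nonneg h2 hp
      simp only [mul_zero, ne_eq, OfNat.ofNat_ne_zero, not_false_eq_true, zero_pow]
      nlinarith
    · rw [← hK0]
      have := mul_nonneg h1 hq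
      simp only [mul_zero, ne_eq, OfNat.ofNat_ne_zero, not_false_eq_true, zero_pow]
      nlinarith
  · have hpos : 0 < p * q * β₁ * β₂ := by
      have : 0 < K ^ 4 := by positivity
      linarith
    have hβ2 : 0 < β₂ := by
      rcases h2.eq_or_lt with h | h
      · rw [← h] at hpos; simp at hpos
      · exact h
    have hp' : 0 < p := by
      rcases hp.eq_or_lt with h | h
      · rw [← h] at hpos; simp at hpos
      · exact h
    set r : ℝ := K / (4 * Real.sqrt (β₂ * p)) with hr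
    have hbp : 0 < β₂ * p := mul_pos hβ2 hp'
    have hsq : Real.sqrt (β₂ * p) ^ 2 = β₂ * p := Real.sq_sqrt hbp.le
    have hs0 : 0 < Real.sqrt (β₂ * p) := Real.sqrt_pos.2 hbp
    have hr0 : 0 < r := by positivity
    have hr2 : r ^ 2 = K ^ 2 / (16 * (β₂ * p)) := by
      rw [hr, div_pow, mul_pow, hsq]
      norm_num
    have hr2' : 16 * (β₂ * p) * r ^ 2 = K ^ 2 := by
      rw [hr2]
      field_simp
    set R : Matrix (Fin 2) (Fin 2) ℝ := Matrix.diagonal ![r, 1] with hR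
    have hdet : R.det ≠ 0 := by
      rw [hR, Matrix.det_diagonal]
      simp [Fin.prod_univ_two, hr0.ne']
    refine Q144.MD.lc _ R hdet ?_
    have e : (fun F : Matrix (Fin 2) (Fin 2) ℝ => W4 ψ p q β₁ β₂ (F * R))
        = WM (fun y : V => ψ (r * y 0) (y 1) + (r ^ 2 * p * y 0 ^ 2 + q * y 1 ^ 2))
          β₁ (r ^ 2 * β₂) := by
      funext F
      simp only [W4, WM, hR, Matrix.mul_diagonal, Matrix.cons_val_zero, Matrix.cons_val_one,
        mul_one]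
      rw [mul_comm r (F 0 0)]
      ring
    rw [e]
    refine qc_unscaled (by positivity) hq h1 (by positivity) ?_ ?_ (h.sc r (r ^ 2 * p) q)
    · rw [abs_of_pos hr0]
      have : 16 * (r ^ 2 * β₂) * (r ^ 2 * p) = (16 * (β₂ * p) * r ^ 2) * r ^ 2 := by ring
      rw [this, hr2']
      exact le_of_eq (by ring)
    · rw [abs_of_pos hr0, mul_pow]
      have hk2 : 0 < K ^ 2 := by positivity
      have h5 : (r ^ 2 * K ^ 2) * (16 * (β₂ * p)) ≤ (16 * β₁ * q) * (16 * (β₂ * p)) := by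
        have e5 : (r ^ 2 * K ^ 2) * (16 * (β₂ * p)) = K ^ 4 := by
          calc _ = (16 * (β₂ * p) * r ^ 2) * K ^ 2 := by ring
            _ = K ^ 2 * K ^ 2 := by rw [hr2']
            _ = K ^ 4 := by ring
        rw [e5]
        calc K ^ 4 ≤ 256 * (p * q * β₁ * β₂) := hK
          _ = _ := by ring
      exact le_of_mul_le_mul_right h5 (by positivity)

section add

theorem qc_add {W₁ W₂ : Matrix (Fin 2) (Fin 2) ℝ → ℝ} (h1 : Quasiconvex W₁) (h2 : Quasiconvex W₂)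
    (c1 : Continuous W₁) (c2 : Continuous W₂) : Quasiconvex (fun F => W₁ F + W₂ F) := by
  rintro F₀ Ω hΩ hb ϑ ⟨K, hK⟩ h0
  have i1 := Q144.MD.int_grad c1 F₀ hb hK
  have i2 := Q144.MD.int_grad c2 F₀ hb hK
  have a1 := h1 F₀ Ω hΩ hb ϑ ⟨K, hK⟩ h0
  have a2 := h2 F₀ Ω hΩ hb ϑ ⟨K, hK⟩ h0
  have e := integral_add (μ := volume.restrict Ω) i1 i2
  refine le_trans (le_of_eq (add_mul _ _ _)) ((add_le_add a1 a2).trans (le_of_eq ?_))
  exact e.symm

theorem qc_smul {W : Matrix (Fin 2) (Fin 2) ℝ → ℝ} (h : Quasiconvex W) {c : ℝ} (hc : 0 ≤ c) :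
    Quasiconvex (fun F => c * W F) := by
  intro F₀ Ω hΩ hb ϑ hK h0
  have a1 := h F₀ Ω hΩ hb ϑ hK h0
  rw [integral_const_mul, mul_assoc]
  exact mul_le_mul_of_nonneg_left a1 hc

end add

/-- larger coefficients -/
theorem qc_mono {ψ : ℝ → ℝ → ℝ} (hc : Continuous (fun y : V => ψ (y 0) (y 1)))
    {p q β₁ β₂ p' q' β₁' β₂' : ℝ} (hp : p ≤ p') (hq : q ≤ q')
    (h1 : β₁ ≤ β₁') (h2 : β₂ ≤ β₂') (h : Quasiconvex (W4 ψ p q β₁ β₂)) :
    Quasiconvex (W4 ψ p' q' β₁' β₂') := by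
  have h0 : Cl (fun _ _ => 0) 0 :=
    ⟨fun _ => convexOn_const _ convex_univ, fun _ => convexOn_const _ convex_univ, by simp⟩
  have a3 : Quasiconvex (W4 (fun _ _ => 0) (p' - p) (q' - q) (β₁' - β₁) (β₂' - β₂)) := by
    have := sub_nonneg.2 hp
    have := sub_nonneg.2 hq
    have := sub_nonneg.2 h1
    have := sub_nonneg.2 h2
    refine qc_gen h0 (by assumption) (by assumption) (by assumption) (by assumption) ?_
    simp only [ne_eq, OfNat.ofNat_ne_zero, not_false_eq_true, zero_pow]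
    positivity
  have b := qc_add h a3 (continuous_W4 hc _ _ _ _)
    (continuous_W4 (ψ := fun _ _ => 0) h0.continuous _ _ _ _)
  have e : W4 ψ p' q' β₁' β₂' = fun F => W4 ψ p q β₁ β₂ F
      + W4 (fun _ _ => 0) (p' - p) (q' - q) (β₁' - β₁) (β₂' - β₂) F := by
    funext F
    simp only [W4]
    ring
  rw [e]
  exact b

/-- the second family: threshold of rank-one convexity -/
theorem qc_two {ψ : ℝ → ℝ → ℝ} {K : ℝ} (h : Cl ψ K) {p q β₁ β₂ : ℝ} (hp : 0 ≤ p) (hq : 0 ≤ q)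
    (h1 : 0 ≤ β₁) (h2 : 0 ≤ β₂) (hle : β₁ * β₂ ≤ p * q)
    (hK2 : K ≤ 2 * (Real.sqrt (p * q) + Real.sqrt (β₁ * β₂))) :
    Quasiconvex (W4 ψ p q β₁ β₂) := by
  have hK := h.nonneg
  set P := Real.sqrt (p * q) with hP
  set R := Real.sqrt (β₁ * β₂) with hR
  have hPR : R ≤ P := Real.sqrt_le_sqrt hle
  have hR0 : 0 ≤ R := Real.sqrt_nonneg _
  have hP2 : P ^ 2 = p * q := Real.sq_sqrt (mul_nonneg hp hq)
  have hR2 : R ^ 2 = β₁ * β₂ := Real.sq_sqrt (mul_nonneg h1 h2)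
  rcases hK.eq_or_lt with hK0 | hK0
  · refine qc_gen h hp hq h1 h2 ?_
    rw [← hK0]
    simp only [ne_eq, OfNat.ofNat_ne_zero, not_false_eq_true, zero_pow]
    positivity
  have hP0 : 0 < P := by
    rcases (Real.sqrt_nonneg (p * q)).eq_or_lt with h | h
    · rw [← hP] at h
      linarith
    · exact h
  -- the convex part
  have hB : Quasiconvex (W4 ψ (K / 2 * (p / P)) (K / 2 * (q / P)) 0 0) := by
    have hs := h.sc 1 (K / 2 * (p / P)) (K / 2 * (q / P))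
    rw [abs_one, one_mul] at hs
    have e : W4 ψ (K / 2 * (p / P)) (K / 2 * (q / P)) 0 0 = WM (fun y : V => ψ (1 * y 0) (y 1)
        + (K / 2 * (p / P) * y 0 ^ 2 + K / 2 * (q / P) * y 1 ^ 2)) 0 0 := by
      funext F
      simp [W4, WM]
    rw [e]
    refine qc_convex (by positivity) (by positivity) ?_ hs
    have : 4 * (K / 2 * (p / P) * (K / 2 * (q / P))) = K ^ 2 * (p * q / P ^ 2) := by
      field_simp
      ring
    rw [this, ← hP2, div_self (by positivity), mul_one]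
  rcases hR0.eq_or_lt with hR1 | hR1
  · refine qc_mono h.continuous (p := K / 2 * (p / P)) (q := K / 2 * (q / P)) (β₁ := 0) (β₂ := 0)
      ?_ ?_ h1 h2 hB
    · have : K / 2 ≤ P := by linarith
      calc K / 2 * (p / P) ≤ P * (p / P) := mul_le_mul_of_nonneg_right this (by positivity)
        _ = p := by field_simp
    · have : K / 2 ≤ P := by linarith
      calc K / 2 * (q / P) ≤ P * (q / P) := mul_le_mul_of_nonneg_right this (by positivity)
        _ = q := by field_simp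
  -- the mixed part
  have hA : Quasiconvex (W4 ψ (K / 4 * (p / P)) (K / 4 * (q / P)) (K / 4 * (β₁ / R))
      (K / 4 * (β₂ / R))) := by
    refine qc_gen h (by positivity) (by positivity) (by positivity) (by positivity) ?_
    have : 256 * (K / 4 * (p / P) * (K / 4 * (q / P)) * (K / 4 * (β₁ / R)) * (K / 4 * (β₂ / R)))
        = K ^ 4 * ((p * q / P ^ 2) * (β₁ * β₂ / R ^ 2)) := by
      field_simp
      ring
    rw [this, ← hP2, ← hR2, div_self (by positivity), div_self (by positivity), mul_one, mul_one]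
  set t := min 1 (4 * R / K) with ht
  have ht0 : 0 ≤ t := le_min zero_le_one (by positivity)
  have ht1 : t ≤ 1 := min_le_left _ _
  have htR : t * (K / 4) ≤ R := by
    have : t ≤ 4 * R / K := min_le_right _ _
    calc t * (K / 4) ≤ 4 * R / K * (K / 4) := mul_le_mul_of_nonneg_right this (by positivity)
      _ = R := by field_simp
  have htP : t * (K / 4) + (1 - t) * (K / 2) ≤ P := by
    rcases le_total 1 (4 * R / K) with h | h
    · have e : t = 1 := min_eq_left h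
      rw [le_div_iff₀ hK0] at h
      rw [e]
      linarith
    · have e : t = 4 * R / K := min_eq_right h
      have e2 : t * K = 4 * R := by rw [e]; field_simp
      nlinarith
  have c1 := continuous_W4 h.continuous (K / 4 * (p / P)) (K / 4 * (q / P)) (K / 4 * (β₁ / R))
      (K / 4 * (β₂ / R))
  have c2 := continuous_W4 h.continuous (K / 2 * (p / P)) (K / 2 * (q / P)) 0 0
  have b := qc_add (qc_smul hA ht0) (qc_smul hB (by linarith : 0 ≤ 1 - t))
    (continuous_const.mul c1) (continuous_const.mul c2)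
  have e : (fun F => t * W4 ψ (K / 4 * (p / P)) (K / 4 * (q / P)) (K / 4 * (β₁ / R))
      (K / 4 * (β₂ / R)) F + (1 - t) * W4 ψ (K / 2 * (p / P)) (K / 2 * (q / P)) 0 0 F)
      = W4 ψ ((t * (K / 4) + (1 - t) * (K / 2)) * (p / P))
        ((t * (K / 4) + (1 - t) * (K / 2)) * (q / P)) (t * (K / 4) * (β₁ / R))
        (t * (K / 4) * (β₂ / R)) := by
    funext F
    simp only [W4]
    ring
  rw [e] at b
  refine qc_mono h.continuous ?_ ?_ ?_ ?_ b
  · calc (t * (K / 4) + (1 - t) * (K / 2)) * (p / P) ≤ P * (p / P) :=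
        mul_le_mul_of_nonneg_right htP (by positivity)
      _ = p := by field_simp
  · calc (t * (K / 4) + (1 - t) * (K / 2)) * (q / P) ≤ P * (q / P) :=
        mul_le_mul_of_nonneg_right htP (by positivity)
      _ = q := by field_simp
  · calc t * (K / 4) * (β₁ / R) ≤ R * (β₁ / R) := mul_le_mul_of_nonneg_right htR (by positivity)
      _ = β₁ := by field_simp
  · calc t * (K / 4) * (β₂ / R) ≤ R * (β₂ / R) := mul_le_mul_of_nonneg_right htR (by positivity)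
      _ = β₂ := by field_simp

/-- the threshold of rank-one convexity -/
theorem roc_two {ψ : ℝ → ℝ → ℝ} {K : ℝ} (h : Cl ψ K) {p q β₁ β₂ : ℝ} (hp : 0 ≤ p) (hq : 0 ≤ q)
    (h1 : 0 ≤ β₁) (h2 : 0 ≤ β₂)
    (hK2 : K ≤ 2 * (Real.sqrt (p * q) + Real.sqrt (β₁ * β₂))) :
    RankOneConvex (W4 ψ p q β₁ β₂) := by
  intro F H hH t ht0 ht1
  have hdet : H 0 0 * H 1 1 = H 0 1 * H 1 0 := by
    have hd : H.det = 0 := by
      by_contra hne
      have := Matrix.rank_of_isUnit H ((Matrix.isUnit_iff_isUnit_det H).2 (isUnit_iff_ne_zero.2 hne))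
      rw [hH] at this
      simp at this
    rw [Matrix.det_fin_two] at hd
    linarith
  have hs : 0 ≤ 1 - t := by linarith
  have k1 := (h.1 (F 1 1 + t * H 1 1)).2 (mem_univ (F 0 0)) (mem_univ (F 0 0 + H 0 0)) hs ht0
    (by ring)
  have k2 := (h.2.1 (F 0 0)).2 (mem_univ (F 1 1)) (mem_univ (F 1 1 + H 1 1)) hs ht0 (by ring)
  have k3 := (h.2.1 (F 0 0 + H 0 0)).2 (mem_univ (F 1 1)) (mem_univ (F 1 1 + H 1 1)) hs ht0 (by ring)
  simp only [smul_eq_mul] at k1 k2 k3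
  have r1 : (1 - t) * F 0 0 + t * (F 0 0 + H 0 0) = F 0 0 + t * H 0 0 := by ring
  have r2 : (1 - t) * F 1 1 + t * (F 1 1 + H 1 1) = F 1 1 + t * H 1 1 := by ring
  rw [r1] at k1
  rw [r2] at k2 k3
  have hmx := (abs_le.1 (h.2.2 (F 0 0) (F 0 0 + H 0 0) (F 1 1) (F 1 1 + H 1 1))).1
  rw [add_sub_cancel_left, add_sub_cancel_left] at hmx
  set A := ψ (F 0 0) (F 1 1)
  set B := ψ (F 0 0 + H 0 0) (F 1 1)
  set C := ψ (F 0 0) (F 1 1 + H 1 1)
  set D := ψ (F 0 0 + H 0 0) (F 1 1 + H 1 1)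
  have key : ψ (F 0 0 + t * H 0 0) (F 1 1 + t * H 1 1)
      ≤ (1 - t) * A + t * D + t * (1 - t) * (K * |H 0 0| * |H 1 1|) := by
    have m2 := mul_le_mul_of_nonneg_left k2 hs
    have m3 := mul_le_mul_of_nonneg_left k3 ht0
    have m4 := mul_le_mul_of_nonneg_left hmx (mul_nonneg ht0 hs)
    nlinarith
  -- the quadratic part
  have q1 : 2 * Real.sqrt (p * q) * (|H 0 0| * |H 1 1|) ≤ p * H 0 0 ^ 2 + q * H 1 1 ^ 2 := by
    rw [Real.sqrt_mul hp]
    have e1 := Real.sq_sqrt hp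
    have e2 := Real.sq_sqrt hq
    have := sq_nonneg (Real.sqrt p * |H 0 0| - Real.sqrt q * |H 1 1|)
    have e3 : (Real.sqrt p * |H 0 0| - Real.sqrt q * |H 1 1|) ^ 2 = Real.sqrt p ^ 2 * |H 0 0| ^ 2
      - 2 * (Real.sqrt p * Real.sqrt q) * (|H 0 0| * |H 1 1|)
      + Real.sqrt q ^ 2 * |H 1 1| ^ 2 := by ring
    rw [e1, e2, sq_abs, sq_abs] at e3
    linarith
  have q2 : 2 * Real.sqrt (β₁ * β₂) * (|H 0 1| * |H 1 0|) ≤ β₁ * H 0 1 ^ 2 + β₂ * H 1 0 ^ 2 := by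
    rw [Real.sqrt_mul h1]
    have e1 := Real.sq_sqrt h1
    have e2 := Real.sq_sqrt h2
    have := sq_nonneg (Real.sqrt β₁ * |H 0 1| - Real.sqrt β₂ * |H 1 0|)
    have e3 : (Real.sqrt β₁ * |H 0 1| - Real.sqrt β₂ * |H 1 0|) ^ 2 = Real.sqrt β₁ ^ 2 * |H 0 1| ^ 2
      - 2 * (Real.sqrt β₁ * Real.sqrt β₂) * (|H 0 1| * |H 1 0|)
      + Real.sqrt β₂ ^ 2 * |H 1 0| ^ 2 := by ring
    rw [e1, e2, sq_abs, sq_abs] at e3
    linarith
  have habs : |H 0 1| * |H 1 0| = |H 0 0| * |H 1 1| := by rw [← abs_mul, ← abs_mul, hdet]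
  rw [habs] at q2
  have q3 : K * |H 0 0| * |H 1 1|
      ≤ p * H 0 0 ^ 2 + q * H 1 1 ^ 2 + (β₁ * H 0 1 ^ 2 + β₂ * H 1 0 ^ 2) := by
    have := mul_le_mul_of_nonneg_right hK2 (mul_nonneg (abs_nonneg (H 0 0)) (abs_nonneg (H 1 1)))
    linarith
  have q4 := mul_le_mul_of_nonneg_left q3 (mul_nonneg ht0 hs)
  simp only [W4, Matrix.add_apply, Matrix.smul_apply, smul_eq_mul, r1, r2]
  have r3 : (1 - t) * F 0 1 + t * (F 0 1 + H 0 1) = F 0 1 + t * H 0 1 := by ring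
  have r4 : (1 - t) * F 1 0 + t * (F 1 0 + H 1 0) = F 1 0 + t * H 1 0 := by ring
  rw [r3, r4]
  have e5 : (1 - t) * (A + (p * F 0 0 ^ 2 + q * F 1 1 ^ 2) + (β₁ * F 0 1 ^ 2 + β₂ * F 1 0 ^ 2))
      + t * (D + (p * (F 0 0 + H 0 0) ^ 2 + q * (F 1 1 + H 1 1) ^ 2)
        + (β₁ * (F 0 1 + H 0 1) ^ 2 + β₂ * (F 1 0 + H 1 0) ^ 2))
      = (1 - t) * A + t * D + ((p * (F 0 0 + t * H 0 0) ^ 2 + q * (F 1 1 + t * H 1 1) ^ 2)
        + (β₁ * (F 0 1 + t * H 0 1) ^ 2 + β₂ * (F 1 0 + t * H 1 0) ^ 2))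
        + t * (1 - t) * (p * H 0 0 ^ 2 + q * H 1 1 ^ 2 + (β₁ * H 0 1 ^ 2 + β₂ * H 1 0 ^ 2)) := by
    ring
  rw [e5]
  linarith

/-- gradient -/
noncomputable abbrev gd (ϑ : V → V) (x : V) : Matrix (Fin 2) (Fin 2) ℝ :=
  LinearMap.toMatrix' ((fderiv ℝ ϑ x : V →L[ℝ] V) : V →ₗ[ℝ] V)

/-- the Dirichlet integrals of the entries -/
noncomputable def Dr (ϑ : V → V) (Ω : Set V) (i j : Fin 2) : ℝ := ∫ x in Ω, gd ϑ x i j ^ 2

theorem Dr_nonneg (ϑ : V → V) (Ω : Set V) (i j : Fin 2) : 0 ≤ Dr ϑ Ω i j :=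
  integral_nonneg fun _ => sq_nonneg _

/-- the translated function -/
theorem Cl.shift {ψ : ℝ → ℝ → ℝ} {K : ℝ} (h : Cl ψ K) (a b : ℝ) :
    Cl (fun x y => ψ (a + x) (b + y)) K := by
  refine ⟨fun y => ?_, fun x => ?_, fun x x' y y' => ?_⟩
  · simpa using convex_affine (h.1 (b + y)) 1 a 0 0
  · simpa using convex_affine (h.2.1 (a + x)) 1 b 0 0
  · have := h.2.2 (a + x) (a + x') (b + y) (b + y')
    rw [add_sub_add_left_eq_sub, add_sub_add_left_eq_sub] at this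
    exact this

/-- the inequality with weights -/
theorem weighted {ψ : ℝ → ℝ → ℝ} {K : ℝ} (h : Cl ψ K) {p q β₁ β₂ : ℝ} (hp : 0 ≤ p) (hq : 0 ≤ q)
    (h1 : 0 ≤ β₁) (h2 : 0 ≤ β₂) (hK : K ^ 4 ≤ 256 * (p * q * β₁ * β₂))
    (F₀ : Matrix (Fin 2) (Fin 2) ℝ) {Ω : Set V} (hΩ : IsOpen Ω) (hb : Bornology.IsBounded Ω)
    {ϑ : V → V} {C : NNReal} (hC : LipschitzWith C ϑ) (h0 : ∀ x, x ∉ Ω → ϑ x = 0) :
    ψ (F₀ 0 0) (F₀ 1 1) * (volume Ω).toReal ≤
      (∫ x in Ω, ψ (F₀ 0 0 + gd ϑ x 0 0) (F₀ 1 1 + gd ϑ x 1 1))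
        + (p * Dr ϑ Ω 0 0 + q * Dr ϑ Ω 1 1 + β₁ * Dr ϑ Ω 0 1 + β₂ * Dr ϑ Ω 1 0) := by
  set ψ' : ℝ → ℝ → ℝ := fun x y => ψ (F₀ 0 0 + x) (F₀ 1 1 + y) with hψ'
  have h' : Cl ψ' K := h.shift _ _
  have hq' := qc_gen h' hp hq h1 h2 hK 0 Ω hΩ hb ϑ ⟨C, hC⟩ h0
  have hc := h'.continuous
  have hpr : ∀ i j : Fin 2, Continuous (fun F : Matrix (Fin 2) (Fin 2) ℝ => F i j ^ 2) := fun i j =>
    (continuous_id.matrix_elem i j).pow 2
  have i0 : IntegrableOn (fun x => ψ' (gd ϑ x 0 0) (gd ϑ x 1 1)) Ω := by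
    have h2 : Continuous (fun F : Matrix (Fin 2) (Fin 2) ℝ => ψ' (F 0 0) (F 1 1)) := by
      have h3 : Continuous (fun F : Matrix (Fin 2) (Fin 2) ℝ => (![F 0 0, F 1 1] : V)) := by
        refine continuous_pi fun i => ?_
        fin_cases i
        · exact continuous_id.matrix_elem 0 0
        · exact continuous_id.matrix_elem 1 1
      exact hc.comp h3
    have := Q144.MD.int_grad h2 0 hb hC
    simp only [zero_add] at this
    exact this
  have iD : ∀ i j : Fin 2, IntegrableOn (fun x => gd ϑ x i j ^ 2) Ω := by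
    intro i j
    have := Q144.MD.int_grad (hpr i j) 0 hb hC
    simp only [zero_add] at this
    exact this
  have e : ∫ x in Ω, W4 ψ' p q β₁ β₂ (0 + gd ϑ x)
      = (∫ x in Ω, ψ' (gd ϑ x 0 0) (gd ϑ x 1 1))
        + (p * Dr ϑ Ω 0 0 + q * Dr ϑ Ω 1 1 + β₁ * Dr ϑ Ω 0 1 + β₂ * Dr ϑ Ω 1 0) := by
    have e1 : ∀ x, W4 ψ' p q β₁ β₂ (0 + gd ϑ x) = ψ' (gd ϑ x 0 0) (gd ϑ x 1 1)
        + (p * gd ϑ x 0 0 ^ 2 + q * gd ϑ x 1 1 ^ 2 + β₁ * gd ϑ x 0 1 ^ 2 + β₂ * gd ϑ x 1 0 ^ 2) := by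
      intro x
      simp only [W4, zero_add]
      ring
    simp only [e1]
    have j1 : IntegrableOn (fun x => p * gd ϑ x 0 0 ^ 2 + q * gd ϑ x 1 1 ^ 2) Ω :=
      ((iD 0 0).const_mul p).add ((iD 1 1).const_mul q)
    have j2 : IntegrableOn (fun x => p * gd ϑ x 0 0 ^ 2 + q * gd ϑ x 1 1 ^ 2
        + β₁ * gd ϑ x 0 1 ^ 2) Ω := j1.add ((iD 0 1).const_mul β₁)
    have j3 : IntegrableOn (fun x => p * gd ϑ x 0 0 ^ 2 + q * gd ϑ x 1 1 ^ 2
        + β₁ * gd ϑ x 0 1 ^ 2 + β₂ * gd ϑ x 1 0 ^ 2) Ω := j2.add ((iD 1 0).const_mul β₂)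
    rw [integral_add i0 j3, integral_add j2 ((iD 1 0).const_mul β₂),
      integral_add j1 ((iD 0 1).const_mul β₁),
      integral_add ((iD 0 0).const_mul p) ((iD 1 1).const_mul q)]
    simp only [integral_const_mul]
    rfl
  have e2 : W4 ψ' p q β₁ β₂ 0 = ψ (F₀ 0 0) (F₀ 1 1) := by
    simp [W4, hψ']
  rw [e2] at hq'
  exact hq'.trans (le_of_eq e)

/-- **The multiplicative inequality.** -/
theorem mult {ψ : ℝ → ℝ → ℝ} {K : ℝ} (h : Cl ψ K)
    (F₀ : Matrix (Fin 2) (Fin 2) ℝ) {Ω : Set V} (hΩ : IsOpen Ω) (hb : Bornology.IsBounded Ω)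
    {ϑ : V → V} {C : NNReal} (hC : LipschitzWith C ϑ) (h0 : ∀ x, x ∉ Ω → ϑ x = 0) :
    ψ (F₀ 0 0) (F₀ 1 1) * (volume Ω).toReal ≤
      (∫ x in Ω, ψ (F₀ 0 0 + gd ϑ x 0 0) (F₀ 1 1 + gd ϑ x 1 1))
        + K * (Dr ϑ Ω 0 0 * Dr ϑ Ω 1 1 * Dr ϑ Ω 0 1 * Dr ϑ Ω 1 0) ^ (1 / 4 : ℝ) := by
  have hK := h.nonneg
  have d00 := Dr_nonneg ϑ Ω 0 0
  have d11 := Dr_nonneg ϑ Ω 1 1
  have d01 := Dr_nonneg ϑ Ω 0 1
  have d10 := Dr_nonneg ϑ Ω 1 0
  set a := Dr ϑ Ω 0 0
  set b := Dr ϑ Ω 1 1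
  set c := Dr ϑ Ω 0 1
  set d := Dr ϑ Ω 1 0
  have key : ∀ ε : ℝ, 0 < ε → ψ (F₀ 0 0) (F₀ 1 1) * (volume Ω).toReal ≤
      (∫ x in Ω, ψ (F₀ 0 0 + gd ϑ x 0 0) (F₀ 1 1 + gd ϑ x 1 1))
        + K * ((a + ε) * (b + ε) * (c + ε) * (d + ε)) ^ (1 / 4 : ℝ) := by
    intro ε hε
    have pa : 0 < a + ε := by positivity
    have pb : 0 < b + ε := by positivity
    have pc : 0 < c + ε := by positivity
    have pd : 0 < d + ε := by positivity
    have hP : 0 < (a + ε) * (b + ε) * (c + ε) * (d + ε) := by positivity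
    set T := ((a + ε) * (b + ε) * (c + ε) * (d + ε)) ^ (1 / 4 : ℝ) with hT
    have hT0 : 0 < T := Real.rpow_pos_of_pos hP _
    have hT4 : T ^ 4 = (a + ε) * (b + ε) * (c + ε) * (d + ε) := by
      rw [hT, ← Real.rpow_natCast, ← Real.rpow_mul hP.le]
      norm_num
    have hw := weighted h (p := K / 4 * (T / (a + ε))) (q := K / 4 * (T / (b + ε)))
      (β₁ := K / 4 * (T / (c + ε))) (β₂ := K / 4 * (T / (d + ε))) (by positivity) (by positivity)
      (by positivity) (by positivity) (by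
        have : 256 * (K / 4 * (T / (a + ε)) * (K / 4 * (T / (b + ε))) * (K / 4 * (T / (c + ε)))
            * (K / 4 * (T / (d + ε)))) = K ^ 4 * (T ^ 4 / ((a + ε) * (b + ε) * (c + ε) * (d + ε))) := by
          field_simp
          ring
        rw [this, hT4, div_self hP.ne', mul_one]) F₀ hΩ hb hC h0
    refine hw.trans ?_
    have q : ∀ x : ℝ, 0 ≤ x → K / 4 * (T / (x + ε)) * x ≤ K / 4 * T := by
      intro x hx
      have hx1 : 0 < x + ε := by positivity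
      have h3 : T / (x + ε) * x ≤ T := by
        rw [div_mul_eq_mul_div, div_le_iff₀ hx1]
        nlinarith
      calc K / 4 * (T / (x + ε)) * x = K / 4 * (T / (x + ε) * x) := by ring
        _ ≤ K / 4 * T := mul_le_mul_of_nonneg_left h3 (by positivity)
    have := q a d00
    have := q b d11
    have := q c d01
    have := q d d10
    linarith
  have hcont : Continuous (fun ε : ℝ => (∫ x in Ω, ψ (F₀ 0 0 + gd ϑ x 0 0) (F₀ 1 1 + gd ϑ x 1 1))
        + K * ((a + ε) * (b + ε) * (c + ε) * (d + ε)) ^ (1 / 4 : ℝ)) := by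
    refine continuous_const.add (continuous_const.mul ?_)
    refine Continuous.rpow_const (by fun_prop) fun x => Or.inr (by norm_num)
  have hlim := (hcont.tendsto 0).mono_left (nhdsWithin_le_nhds (s := Ioi 0))
  have := ge_of_tendsto hlim (by
    filter_upwards [self_mem_nhdsWithin] with ε hε
    exact key ε hε)
  simpa using this

end Pool.Agent.Q246.MM
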