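import Pool.Agent.Q246.MM.Lip

/-!
# The constant in the multiplicative inequality is the best possible
-/

set_option autoImplicit false

open MeasureTheory Set Filter Topology

namespace Pool.Agent.Q246.MM

open Pool.Agent.W779.Morrey

theorem ftc {P P' : ℝ → ℝ} (h : ∀ t, HasDerivAt P (P' t) t) (hc : Continuous P') (a b : ℝ) :
    ∫ t in a..b, P' t = P b - P a :=
  intervalIntegral.integral_eq_sub_of_hasDerivAt (fun t _ => h t) (hc.intervalIntegrable _ _)

/-- the rectangle -/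
def Re (N : ℝ) : Set V := {y | y 0 ∈ Ioo (-1 : ℝ) 1 ∧ y 1 ∈ Ioo (-N) N}

theorem isOpen_Re (N : ℝ) : IsOpen (Re N) := by
  have h0 : IsOpen {y : V | y 0 ∈ Ioo (-1 : ℝ) 1} := isOpen_Ioo.preimage (continuous_apply 0)
  have h1 : IsOpen {y : V | y 1 ∈ Ioo (-N) N} := isOpen_Ioo.preimage (continuous_apply 1)
  exact h0.inter h1

theorem int_Re (a b : ℝ → ℝ) {N : ℝ} (hN : 0 < N) :
    ∫ y in Re N, a (y 0) * b (y 1) = (∫ s in (-1 : ℝ)..1, a s) * ∫ t in (-N)..N, b t := by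
  have h1 := (volume_preserving_finTwoArrow ℝ).setIntegral_preimage_emb
    (MeasurableEquiv.finTwoArrow (α := ℝ)).measurableEmbedding (fun z : ℝ × ℝ => a z.1 * b z.2)
    (Ioo (-1 : ℝ) 1 ×ˢ Ioo (-N) N)
  have h2 : (MeasurableEquiv.finTwoArrow (α := ℝ)) ⁻¹' (Ioo (-1 : ℝ) 1 ×ˢ Ioo (-N) N) = Re N := rfl
  rw [h2] at h1
  have h3 : ∫ y in Re N, a (y 0) * b (y 1)
      = ∫ x in Re N, (fun z : ℝ × ℝ => a z.1 * b z.2) (MeasurableEquiv.finTwoArrow x) := rfl
  rw [h3, h1, Measure.volume_eq_prod, setIntegral_prod_mul]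
  rw [intervalIntegral.integral_of_le (by norm_num), intervalIntegral.integral_of_le (by linarith),
    integral_Ioc_eq_integral_Ioo, integral_Ioc_eq_integral_Ioo]

/-- the matrix of the rotation -/
def Am : Matrix (Fin 2) (Fin 2) ℝ := !![1, 1; 1, -1]

theorem det_Am : Am.det = -2 := by
  simp [Am, Matrix.det_fin_two]
  norm_num

theorem det_Am_ne : Am.det ≠ 0 := by rw [det_Am]; norm_num

/-- the rotation -/
noncomputable def ro : V ≃L[ℝ] V := Q144.MD.eqv Am det_Am_ne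

theorem ro_zero (x : V) : ro x 0 = x 0 + x 1 := by
  rw [ro, Q144.MD.eqv_apply]
  simp [Am, Matrix.toLin'_apply, Matrix.mulVec, dotProduct, Fin.sum_univ_two]

theorem ro_one (x : V) : ro x 1 = x 0 - x 1 := by
  rw [ro, Q144.MD.eqv_apply]
  simp [Am, Matrix.toLin'_apply, Matrix.mulVec, dotProduct, Fin.sum_univ_two]
  ring

/-- the domain -/
def Om (N : ℝ) : Set V := ro ⁻¹' Re N

theorem mem_Om {N : ℝ} {x : V} : x ∈ Om N ↔ |x 0 + x 1| < 1 ∧ |x 0 - x 1| < N := by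
  unfold Om Re
  simp only [mem_preimage, mem_setOf_eq, ro_zero, ro_one, mem_Ioo, abs_lt]

theorem isOpen_Om (N : ℝ) : IsOpen (Om N) := (isOpen_Re N).preimage ro.continuous

theorem bdd_Om (N : ℝ) : Bornology.IsBounded (Om N) := by
  refine (Metric.isBounded_closedBall (x := (0 : V)) (r := 1 + |N|)).subset fun x hx => ?_
  rw [mem_Om] at hx
  rw [mem_closedBall_zero_iff, pi_norm_le_iff_of_nonneg (by positivity)]
  have hN := le_abs_self N
  have h1 := abs_lt.1 hx.1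
  have h2 := abs_lt.1 hx.2
  intro i
  rw [Real.norm_eq_abs, abs_le]
  fin_cases i
  · simp only [Fin.zero_eta]
    constructor <;> linarith [h1.1, h1.2, h2.1, h2.2]
  · simp only [Fin.mk_one]
    constructor <;> linarith [h1.1, h1.2, h2.1, h2.2]

/-- the integral over the domain -/
theorem int_Om (G : V → ℝ) (N : ℝ) : ∫ x in Om N, G (ro x) = 1 / 2 * ∫ y in Re N, G y := by
  have h := Q144.MD.int_pre Am det_Am_ne (Re N) G
  rw [det_Am] at h
  have e : |(-2 : ℝ)⁻¹| = 1 / 2 := by norm_num [abs_of_neg]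
  rw [e] at h
  exact h

/-- one-dimensional bump -/
noncomputable def bu (N s : ℝ) : ℝ := 1 - th 1 (s / N) ^ 2

theorem bu_in {N s : ℝ} (hN : 0 < N) (h : |s| < N) : bu N s = 1 - s ^ 2 / N ^ 2 := by
  have : |s / N| ≤ 1 := by
    rw [abs_div, abs_of_pos hN, div_le_one hN]
    exact h.le
  rw [bu, th_eq this, div_pow]

theorem bu_out {N s : ℝ} (hN : 0 < N) (h : N ≤ |s|) : bu N s = 0 := by
  have h1 : 1 ≤ |s / N| := by
    rw [abs_div, abs_of_pos hN, le_div_iff₀ hN]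
    linarith
  rw [bu, th]
  rcases le_abs.1 h1 with h2 | h2
  · rw [min_eq_left h2, max_eq_right (by norm_num)]
    norm_num
  · rw [min_eq_right (by linarith), max_eq_left (by linarith)]
    norm_num

theorem bu_bdd {N s : ℝ} : |bu N s| ≤ 1 := by
  have h1 := th_mem zero_le_one (s / N)
  have h2 : th 1 (s / N) ^ 2 ≤ 1 := by
    rw [← sq_abs]
    have := abs_nonneg (th 1 (s / N))
    nlinarith
  have h3 := sq_nonneg (th 1 (s / N))
  rw [bu, abs_le]
  constructor <;> linarith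

theorem th_lip (M x x' : ℝ) : |th M x - th M x'| ≤ |x - x'| := by
  unfold th
  refine (abs_max_sub_max_le_max _ _ _ _).trans ?_
  rw [sub_self, abs_zero]
  refine max_le (abs_nonneg _) ((abs_min_sub_min_le_max _ _ _ _).trans ?_)
  rw [sub_self, abs_zero]
  exact max_le (abs_nonneg _) le_rfl

theorem bu_lip {N : ℝ} (hN : 1 ≤ N) (s s' : ℝ) : |bu N s - bu N s'| ≤ 2 * |s - s'| := by
  have hN0 : 0 < N := by linarith
  have e : bu N s - bu N s' = (th 1 (s' / N) - th 1 (s / N)) * (th 1 (s' / N) + th 1 (s / N)) := by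
    simp only [bu]; ring
  rw [e, abs_mul]
  have h1 := th_lip 1 (s' / N) (s / N)
  have h2 : |s' / N - s / N| ≤ |s - s'| := by
    rw [← sub_div, abs_div, abs_of_pos hN0, abs_sub_comm]
    exact div_le_self (abs_nonneg _) hN
  have h3 : |th 1 (s' / N) + th 1 (s / N)| ≤ 2 := by
    have a1 := th_mem zero_le_one (s' / N)
    have a2 := th_mem zero_le_one (s / N)
    exact (abs_add_le _ _).trans (by linarith)
  calc |th 1 (s' / N) - th 1 (s / N)| * |th 1 (s' / N) + th 1 (s / N)|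
      ≤ |s - s'| * 2 := mul_le_mul (h1.trans h2) h3 (abs_nonneg _) (abs_nonneg _)
    _ = _ := by ring

/-- the scalar bump -/
noncomputable def ph2 (N : ℝ) (x : V) : ℝ := bu 1 (x 0 + x 1) * bu N (x 0 - x 1)

/-- the test map -/
noncomputable def te (N : ℝ) (x : V) : V := ![ph2 N x, -ph2 N x]

theorem te_out {N : ℝ} (hN : 0 < N) {x : V} (hx : x ∉ Om N) : te N x = 0 := by
  have h : ph2 N x = 0 := by
    rw [mem_Om, not_and_or, not_lt, not_lt] at hx
    unfold ph2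
    rcases hx with h | h
    · rw [bu_out one_pos h, zero_mul]
    · rw [bu_out hN h, mul_zero]
  ext i
  fin_cases i <;> simp [te, h]

theorem te_lip {N : ℝ} (hN : 1 ≤ N) : LipschitzWith 8 (te N) := by
  refine LipschitzWith.of_dist_le_mul fun x x' => ?_
  rw [dist_eq_norm, dist_eq_norm]
  have hc : ∀ i, |x i - x' i| ≤ ‖x - x'‖ := fun i => by
    have := norm_le_pi_norm (x - x') i
    rwa [Real.norm_eq_abs] at this
  have h1 : |(x 0 + x 1) - (x' 0 + x' 1)| ≤ 2 * ‖x - x'‖ := by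
    have e : (x 0 + x 1) - (x' 0 + x' 1) = (x 0 - x' 0) + (x 1 - x' 1) := by ring
    rw [e]
    have := hc 0
    have := hc 1
    exact (abs_add_le _ _).trans (by linarith)
  have h2 : |(x 0 - x 1) - (x' 0 - x' 1)| ≤ 2 * ‖x - x'‖ := by
    have e : (x 0 - x 1) - (x' 0 - x' 1) = (x 0 - x' 0) - (x 1 - x' 1) := by ring
    rw [e]
    have := hc 0
    have := hc 1
    exact (abs_sub _ _).trans (by linarith)
  have h3 : |ph2 N x - ph2 N x'| ≤ 8 * ‖x - x'‖ := by
    have e : ph2 N x - ph2 N x' = (bu 1 (x 0 + x 1) - bu 1 (x' 0 + x' 1)) * bu N (x 0 - x 1)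
        + bu 1 (x' 0 + x' 1) * (bu N (x 0 - x 1) - bu N (x' 0 - x' 1)) := by
      simp only [ph2]; ring
    rw [e]
    refine (abs_add_le _ _).trans ?_
    rw [abs_mul, abs_mul]
    have a1 := bu_lip le_rfl (x 0 + x 1) (x' 0 + x' 1)
    have a2 := bu_lip hN (x 0 - x 1) (x' 0 - x' 1)
    have a3 := bu_bdd (N := N) (s := x 0 - x 1)
    have a4 := bu_bdd (N := 1) (s := x' 0 + x' 1)
    have b1 := mul_le_mul a1 a3 (abs_nonneg _) (by positivity)
    have b2 := mul_le_mul a4 a2 (abs_nonneg _) (by norm_num)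
    linarith
  refine (pi_norm_le_iff_of_nonneg (by positivity)).2 fun i => ?_
  rw [Real.norm_eq_abs]
  fin_cases i
  · simp only [Fin.zero_eta, Pi.sub_apply, te, Matrix.cons_val_zero]
    exact h3
  · have e : (te N x - te N x') 1 = -(ph2 N x - ph2 N x') := by
      simp [te]
      ring
    simp only [Fin.mk_one]
    rw [e, abs_neg]
    exact h3

/-- the gradient inside -/
theorem gd_te {N : ℝ} (hN : 0 < N) {x : V} (hx : x ∈ Om N) :
    gd (te N) x 0 0 = -2 * (ro x 0) * (1 - ro x 1 ^ 2 / N ^ 2)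
        + (1 - ro x 0 ^ 2) * (-2 * ro x 1 / N ^ 2) ∧
    gd (te N) x 0 1 = -2 * (ro x 0) * (1 - ro x 1 ^ 2 / N ^ 2)
        - (1 - ro x 0 ^ 2) * (-2 * ro x 1 / N ^ 2) ∧
    gd (te N) x 1 0 = -gd (te N) x 0 0 ∧ gd (te N) x 1 1 = -gd (te N) x 0 1 := by
  rw [ro_zero, ro_one]
  set φ : V → ℝ := fun x => (1 - (x 0 + x 1) ^ 2) * (1 - (x 0 - x 1) ^ 2 / N ^ 2) with hφ
  have heq : te N =ᶠ[𝓝 x] fun x => ![φ x, -φ x] := by
    filter_upwards [(isOpen_Om N).mem_nhds hx] with y hy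
    rw [mem_Om] at hy
    have : ph2 N y = φ y := by
      rw [ph2, bu_in one_pos hy.1, bu_in hN hy.2, hφ]
      simp
    rw [te, this]
  set p0 := ContinuousLinearMap.proj (R := ℝ) (φ := fun _ : Fin 2 => ℝ) 0 with hp0
  set p1 := ContinuousLinearMap.proj (R := ℝ) (φ := fun _ : Fin 2 => ℝ) 1 with hp1
  set a := -2 * (x 0 + x 1) * (1 - (x 0 - x 1) ^ 2 / N ^ 2) with ha
  set b := (1 - (x 0 + x 1) ^ 2) * (-2 * (x 0 - x 1) / N ^ 2) with hb
  have hd0 : HasFDerivAt (fun x : V => x 0) p0 x := p0.hasFDerivAt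
  have hd1 : HasFDerivAt (fun x : V => x 1) p1 x := p1.hasFDerivAt
  have hu : HasFDerivAt (fun x : V => 1 - (x 0 + x 1) ^ 2)
      (-((2 * (x 0 + x 1)) • (p0 + p1))) x := by
    have := ((hd0.add hd1).pow 2).const_sub 1
    refine this.congr_fderiv ?_
    ext v
    simp
    ring
  have hw : HasFDerivAt (fun x : V => 1 - (x 0 - x 1) ^ 2 / N ^ 2)
      (-((2 * (x 0 - x 1) / N ^ 2) • (p0 - p1))) x := by
    have := (((hd0.sub hd1).pow 2).mul_const (N ^ 2)⁻¹).const_sub 1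
    refine this.congr_fderiv ?_
    ext v
    simp
    ring
  have hφd : HasFDerivAt φ ((a + b) • p0 + (a - b) • p1) x := by
    refine (hu.mul hw).congr_fderiv ?_
    ext v
    simp only [_root_.add_apply, FunLike.coe_smul, Pi.smul_apply, smul_eq_mul, _root_.neg_apply,
      _root_.sub_apply, ha, hb]
    ring
  have hF : HasFDerivAt (fun x => (![φ x, -φ x] : V))
      (ContinuousLinearMap.pi ![(a + b) • p0 + (a - b) • p1, -((a + b) • p0 + (a - b) • p1)]) x := by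
    rw [hasFDerivAt_pi']
    intro i
    fin_cases i
    · exact hφd
    · exact hφd.neg
  have hfd : fderiv ℝ (te N) x = ContinuousLinearMap.pi
      ![(a + b) • p0 + (a - b) • p1, -((a + b) • p0 + (a - b) • p1)] :=
    (hF.congr_of_eventuallyEq heq).fderiv
  have hg : ∀ i j, gd (te N) x i j = (ContinuousLinearMap.pi
      ![(a + b) • p0 + (a - b) • p1, -((a + b) • p0 + (a - b) • p1)] : V →L[ℝ] V)
        (Pi.single j 1) i := by
    intro i j
    rw [← hfd]
    simp [gd, LinearMap.toMatrix'_apply]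
  refine ⟨?_, ?_, ?_, ?_⟩
  · rw [hg]; simp [hp0, hp1, ha, hb]
  · rw [hg]; simp [hp0, hp1, ha, hb]
  · rw [hg, hg]; simp [hp0, hp1]
  · rw [hg, hg]; simp [hp0, hp1]

/-- the integrals -/
theorem int_poly {N : ℝ} (hN : 0 < N) (α γ δ : ℝ) :
    ∫ x in Om N, (α * (4 * ro x 0 ^ 2 * (1 - ro x 1 ^ 2 / N ^ 2) ^ 2)
      + γ * ((-2 * ro x 0 * (1 - ro x 0 ^ 2)) * ((1 - ro x 1 ^ 2 / N ^ 2) * (-2 * ro x 1 / N ^ 2)))
      + δ * ((1 - ro x 0 ^ 2) ^ 2 * (4 * ro x 1 ^ 2 / N ^ 4)))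
    = α * (64 * N / 45) + δ * (64 / (45 * N)) := by
  rw [int_Om (fun y : V => α * (4 * y 0 ^ 2 * (1 - y 1 ^ 2 / N ^ 2) ^ 2)
      + γ * ((-2 * y 0 * (1 - y 0 ^ 2)) * ((1 - y 1 ^ 2 / N ^ 2) * (-2 * y 1 / N ^ 2)))
      + δ * ((1 - y 0 ^ 2) ^ 2 * (4 * y 1 ^ 2 / N ^ 4))) N]
  have hRb : Re N ⊆ Icc (fun i => ![(-1 : ℝ), -N] i) (fun i => ![(1 : ℝ), N] i) := by
    intro y hy
    rw [mem_Icc]
    constructor
    · intro i
      fin_cases i
      · exact hy.1.1.le
      · exact hy.2.1.le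
    · intro i
      fin_cases i
      · exact hy.1.2.le
      · exact hy.2.2.le
  have hc : ∀ G : V → ℝ, Continuous G → IntegrableOn G (Re N) := fun G hG =>
    (hG.integrableOn_Icc (a := fun i => ![(-1 : ℝ), -N] i) (b := fun i => ![(1 : ℝ), N] i)).mono_set
      hRb
  have c0 : Continuous (fun y : V => y 0) := continuous_apply 0
  have c1 : Continuous (fun y : V => y 1) := continuous_apply 1
  have i1 : IntegrableOn (fun y : V => α * (4 * y 0 ^ 2 * (1 - y 1 ^ 2 / N ^ 2) ^ 2)) (Re N) :=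
    hc _ (by fun_prop)
  have i2 : IntegrableOn (fun y : V => γ * ((-2 * y 0 * (1 - y 0 ^ 2))
      * ((1 - y 1 ^ 2 / N ^ 2) * (-2 * y 1 / N ^ 2)))) (Re N) := hc _ (by fun_prop)
  have i3 : IntegrableOn (fun y : V => δ * ((1 - y 0 ^ 2) ^ 2 * (4 * y 1 ^ 2 / N ^ 4))) (Re N) :=
    hc _ (by fun_prop)
  have i12 : IntegrableOn (fun y : V => α * (4 * y 0 ^ 2 * (1 - y 1 ^ 2 / N ^ 2) ^ 2)
    + γ * ((-2 * y 0 * (1 - y 0 ^ 2))
      * ((1 - y 1 ^ 2 / N ^ 2) * (-2 * y 1 / N ^ 2)))) (Re N) := i1.add i2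
  rw [integral_add i12 i3, integral_add i1 i2, integral_const_mul, integral_const_mul,
    integral_const_mul]
  rw [int_Re (fun s => 4 * s ^ 2) (fun t => (1 - t ^ 2 / N ^ 2) ^ 2) hN,
    int_Re (fun s => -2 * s * (1 - s ^ 2)) (fun t => (1 - t ^ 2 / N ^ 2) * (-2 * t / N ^ 2)) hN,
    int_Re (fun s => (1 - s ^ 2) ^ 2) (fun t => 4 * t ^ 2 / N ^ 4) hN]
  have e1 : ∫ s in (-1 : ℝ)..1, 4 * s ^ 2 = 8 / 3 := by
    rw [ftc (P := fun s => 4 * s ^ 3 / 3) (fun t => by
      have := ((hasDerivAt_pow 3 t).const_mul 4).div_const 3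
      refine this.congr_deriv ?_
      norm_num
      ring) (by fun_prop)]
    norm_num
  have e2 : ∫ t in (-N)..N, (1 - t ^ 2 / N ^ 2) ^ 2 = 16 * N / 15 := by
    rw [ftc (P := fun s => s - 2 / (3 * N ^ 2) * s ^ 3 + 1 / (5 * N ^ 4) * s ^ 5) (fun t => by
      have := ((hasDerivAt_id t).sub ((hasDerivAt_pow 3 t).const_mul (2 / (3 * N ^ 2)))).add
        ((hasDerivAt_pow 5 t).const_mul (1 / (5 * N ^ 4)))
      refine this.congr_deriv ?_
      field_simp
      norm_num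
      ring) (by fun_prop)]
    field_simp
    ring
  have e3 : ∫ s in (-1 : ℝ)..1, -2 * s * (1 - s ^ 2) = 0 := by
    rw [ftc (P := fun s => -s ^ 2 + s ^ 4 / 2) (fun t => by
      have := (hasDerivAt_pow 2 t).neg.add ((hasDerivAt_pow 4 t).div_const 2)
      refine this.congr_deriv ?_
      norm_num
      ring) (by fun_prop)]
    norm_num
  have e4 : ∫ s in (-1 : ℝ)..1, (1 - s ^ 2) ^ 2 = 16 / 15 := by
    rw [ftc (P := fun s => s - 2 / 3 * s ^ 3 + 1 / 5 * s ^ 5) (fun t => by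
      have := ((hasDerivAt_id t).sub ((hasDerivAt_pow 3 t).const_mul (2 / 3))).add
        ((hasDerivAt_pow 5 t).const_mul (1 / 5))
      refine this.congr_deriv ?_
      norm_num
      ring) (by fun_prop)]
    norm_num
  have e5 : ∫ t in (-N)..N, 4 * t ^ 2 / N ^ 4 = 8 / (3 * N) := by
    rw [ftc (P := fun s => 4 / (3 * N ^ 4) * s ^ 3) (fun t => by
      have := (hasDerivAt_pow 3 t).const_mul (4 / (3 * N ^ 4))
      refine this.congr_deriv ?_
      field_simp
      norm_num) (by fun_prop)]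
    field_simp
    ring
  rw [e1, e2, e3, e4, e5]
  field_simp
  ring

/-- **The constant is sharp.** -/
theorem sharp {K C : ℝ} (hC : C < K) : ∃ (Ω : Set V) (ϑ : V → V), IsOpen Ω ∧
    Bornology.IsBounded Ω ∧ (∃ L, LipschitzWith L ϑ) ∧ (∀ x, x ∉ Ω → ϑ x = 0) ∧
    (∫ x in Ω, K * gd ϑ x 0 0 * gd ϑ x 1 1)
      + C * (Dr ϑ Ω 0 0 * Dr ϑ Ω 1 1 * Dr ϑ Ω 0 1 * Dr ϑ Ω 1 0) ^ (1 / 4 : ℝ) < 0 := by
  obtain ⟨N, hN1, hN⟩ : ∃ N : ℝ, 1 ≤ N ∧ K + C < (K - C) * N ^ 2 := by
    refine ⟨max 1 (|K + C| / (K - C) + 1), le_max_left _ _, ?_⟩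
    have hKC : 0 < K - C := by linarith
    set N := max 1 (|K + C| / (K - C) + 1) with hN
    have h1 : 1 ≤ N := le_max_left _ _
    have h2 : |K + C| / (K - C) + 1 ≤ N := le_max_right _ _
    have h3 : |K + C| < (K - C) * N := by
      have : |K + C| / (K - C) < N := by linarith
      rwa [div_lt_iff₀ hKC, mul_comm] at this
    have h4 : (K - C) * N ≤ (K - C) * N ^ 2 := mul_le_mul_of_nonneg_left (by nlinarith) hKC.le
    have := le_abs_self (K + C)
    linarith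
  have hN0 : 0 < N := by linarith
  refine ⟨Om N, te N, isOpen_Om N, bdd_Om N, ⟨8, te_lip hN1⟩, fun x hx => te_out hN0 hx, ?_⟩
  have hmem := (isOpen_Om N).measurableSet
  have d00 : Dr (te N) (Om N) 0 0 = 64 * N / 45 + 64 / (45 * N) := by
    rw [Dr]
    have := int_poly hN0 1 2 1
    rw [one_mul, one_mul] at this
    rw [← this]
    refine setIntegral_congr_fun hmem fun x hx => ?_
    rw [(gd_te hN0 hx).1]
    ring
  have d01 : Dr (te N) (Om N) 0 1 = 64 * N / 45 + 64 / (45 * N) := by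
    rw [Dr]
    have := int_poly hN0 1 (-2) 1
    rw [one_mul, one_mul] at this
    rw [← this]
    refine setIntegral_congr_fun hmem fun x hx => ?_
    rw [(gd_te hN0 hx).2.1]
    ring
  have d10 : Dr (te N) (Om N) 1 0 = 64 * N / 45 + 64 / (45 * N) := by
    rw [← d00, Dr, Dr]
    refine setIntegral_congr_fun hmem fun x hx => ?_
    rw [(gd_te hN0 hx).2.2.1]
    ring
  have d11 : Dr (te N) (Om N) 1 1 = 64 * N / 45 + 64 / (45 * N) := by
    rw [← d01, Dr, Dr]
    refine setIntegral_congr_fun hmem fun x hx => ?_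
    rw [(gd_te hN0 hx).2.2.2]
    ring
  have dI : ∫ x in Om N, K * gd (te N) x 0 0 * gd (te N) x 1 1
      = -K * (64 * N / 45) + K * (64 / (45 * N)) := by
    have := int_poly hN0 (-K) 0 K
    rw [← this]
    refine setIntegral_congr_fun hmem fun x hx => ?_
    rw [(gd_te hN0 hx).2.2.2, (gd_te hN0 hx).1, (gd_te hN0 hx).2.1]
    ring
  rw [d00, d01, d10, d11, dI]
  set D := 64 * N / 45 + 64 / (45 * N) with hD
  have hD0 : 0 < D := by positivity
  have e4 : (D * D * D * D) ^ (1 / 4 : ℝ) = D := by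
    have : D * D * D * D = D ^ (4 : ℝ) := by
      rw [show (4 : ℝ) = ((4 : ℕ) : ℝ) by norm_num, Real.rpow_natCast]
      ring
    rw [this, ← Real.rpow_mul hD0.le]
    norm_num
  rw [e4, hD]
  have h5 : -K * (64 * N / 45) + K * (64 / (45 * N)) + C * (64 * N / 45 + 64 / (45 * N))
      = 64 / (45 * N) * ((K + C) - (K - C) * N ^ 2) := by
    field_simp
    ring
  rw [h5]
  exact mul_neg_of_pos_of_neg (by positivity) (by linarith)

end Pool.Agent.Q246.MM
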